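import Pool.Agent.Lib.MP_be0860_lc.Bi.Key
import Pool.Agent.Lib.MP_be0860_lc.Sx.Leaf

/-!
The algorithm for graphs of small bipartite independence number: subroutines.
-/

set_option autoImplicit false

namespace Pool.Agent.Lib.MP_be0860_lc.Bi

open Pool.Agent.Shared.PolyTime Finset Sx

/-- tables of the input -/
abbrev Tc : Type := List (List Cell)

/-- adjacency; the vertex `b` of the right side is `n + b` -/
def ad (n : ℕ) (T : Tc) (u v : ℕ) : Bool :=
  (Nat.blt u n && Nat.ble n v && (cell T u (v - n)).1) ||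
    (Nat.blt v n && Nat.ble n u && (cell T v (u - n)).1)

/-- size of a set -/
def cnt (N : ℕ) (A : Vs) : ℕ := (List.range N).countP fun v => vs A v

/-- edges of the relaxation -/
def relE (n : ℕ) (T : Tc) (F Z D : Vs) (a b : ℕ) : Bool :=
  cond (Nat.blt a n)
    (cond (Nat.blt b n)
      ((cell T a b).1 && !(vs F a && vs F (n + b)) && !vs D a && !vs D (n + b))
      (!vs F a && !vs Z a))
    (Nat.blt b n && !vs F (n + b) && !vs Z (n + b))

/-- costs of the relaxation -/
def relC (n : ℕ) (W : Cs) (F : Vs) (a b : ℕ) : ℕ :=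
  cond (Nat.blt a n)
    (cond (Nat.blt b n && !vs F a && !vs F (n + b)) (cs W a (b, true)) (cs W a (0, false))) 0

/-- vertices matched to dummy vertices -/
def unc (n N : ℕ) (t : Tb) : Vs := mkV (n + n) fun v =>
  cond (Nat.blt v n) (Nat.ble n (gt t v).1)
    ((List.range N).any fun d => Nat.ble n d && n + (gt t d).1 == v)

/-- an instance on all vertices -/
def full (N : ℕ) (f : ℕ → ℕ × Bool → Bool) : Jn :=
  (mkV N fun _ => true, mkV N fun _ => true, mkE N f, 0)

/-- the relaxation with a given number of vertices -/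
def relN (n N : ℕ) (T : Tc) (W : Cs) (F Z D : Vs) : Vs :=
  unc n N (mc N (full N fun a x => relE n T F Z D a x.1) (mkC N fun a x => relC n W F a x.1))

/-- the relaxation -/
def rel (n j : ℕ) (T : Tc) (W : Cs) (F Z D : Vs) : Vs :=
  relN n (n + (j - cnt (n + n) F)) T W F Z D

/-- edges of the completion -/
def finE (n : ℕ) (T : Tc) (F V : Vs) (a : ℕ) (x : ℕ × Bool) : Bool :=
  (cell T a x.1).1 && cond x.2 (!vs V a && !vs V (n + x.1) && !vs F a && !vs F (n + x.1))
    ((vs V a && vs V (n + x.1)) ||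
      (!vs V a && !vs V (n + x.1) && !(vs F a == vs F (n + x.1))))

/-- the completion -/
def finT (n : ℕ) (T : Tc) (W : Cs) (F V : Vs) : Tb := mc n (full n (finE n T F V)) W

/-- the subgraph induced on `V` -/
def subJ (n : ℕ) (T : Tc) (V : Vs) : Jn :=
  (mkV n fun a => vs V a, mkV n fun b => vs V (n + b),
    mkE n fun a x => (cell T a x.1).1 && !x.2, 0)

/-- test for a perfect matching of `V` -/
def hasP (n : ℕ) (T : Tc) (V : Vs) : Bool := feas n (subJ n T V) (mc n (subJ n T V) [])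

/-- the abstract instance -/
def ctx (n j : ℕ) (T : Tc) (W : Cs) (b : ℕ) (w : ℤ) : Ctx :=
  ⟨range (n + n), fun v => Nat.blt v n, fun u v => ad n T u v = true,
    fun u v => if u < n then (cs W u (v - n, true) : ℤ) - cs W u (0, false) else 0, j, b, w⟩

/-- the cost of the free edges -/
def base (n : ℕ) (W : Cs) : ℤ := ∑ a ∈ range n, (cs W a (0, false) : ℤ)

/-- left part -/
def lo (n : ℕ) (S : Finset ℕ) : Finset ℕ := (range n).filter fun a => a ∈ S

/-- right part -/
def hi (n : ℕ) (S : Finset ℕ) : Finset ℕ := (range n).filter fun b => n + b ∈ S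

variable {n j b : ℕ} {T : Tc} {W : Cs} {w : ℤ} {S : Finset ℕ}

theorem mem_lo {a : ℕ} : a ∈ lo n S ↔ a < n ∧ a ∈ S := by simp [lo]

theorem mem_hi {a : ℕ} : a ∈ hi n S ↔ a < n ∧ n + a ∈ S := by simp [hi]

theorem lo_hi (h : S ⊆ range (n + n)) : lo n S ∪ (hi n S).image (n + ·) = S := by
  ext v
  simp only [mem_union, mem_image, mem_lo, mem_hi]
  refine ⟨?_, fun hv => ?_⟩
  · rintro (q | ⟨a, q, rfl⟩)
    exacts [q.2, q.2]
  · have := mem_range.1 (h hv)
    by_cases q : v < n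
    · exact Or.inl ⟨q, hv⟩
    · have e : n + (v - n) = v := by omega
      exact Or.inr ⟨v - n, ⟨by omega, by rwa [e]⟩, e⟩

theorem disj_lo_hi (A B : Finset ℕ) : Disjoint (lo n A) (B.image (n + ·)) :=
  disjoint_left.2 fun v h1 h2 => by
    obtain ⟨a, -, rfl⟩ := mem_image.1 h2
    have := (mem_lo.1 h1).1
    omega

theorem sum_lo_hi {M : Type} [AddCommMonoid M] (h : S ⊆ range (n + n)) (f : ℕ → M) :
    ∑ v ∈ S, f v = ∑ a ∈ lo n S, f a + ∑ a ∈ hi n S, f (n + a) := by
  conv_lhs => rw [← lo_hi h]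
  rw [sum_union (disj_lo_hi _ _), sum_image fun a _ b _ e => Nat.add_left_cancel e]

theorem card_lo_hi (h : S ⊆ range (n + n)) : #S = #(lo n S) + #(hi n S) := by
  simpa using sum_lo_hi h fun _ => (1 : ℕ)

theorem bal_lo_hi (h : S ⊆ range (n + n)) :
    bal (fun v => Nat.blt v n) S = (#(lo n S) : ℤ) - #(hi n S) := by
  rw [bal, sum_lo_hi h, sum_congr rfl (g := fun _ => (1 : ℤ)) fun a ha => by
    simp [Nat.blt_eq, (mem_lo.1 ha).1], sum_congr rfl (s₁ := hi n S) (g := fun _ => (-1 : ℤ))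
      fun a ha => by simp [Nat.blt_eq]]
  simp
  ring

theorem ad_lo {a : ℕ} (h : a < n) (c : ℕ) : ad n T a (n + c) = (cell T a c).1 := by
  have h1 : Nat.blt a n = true := Nat.blt_eq.mpr h
  have h2 : Nat.ble n (n + c) = true := Nat.ble_eq.mpr (by omega)
  have h3 : Nat.blt (n + c) n = false := by
    rw [← Bool.not_eq_true, Nat.blt_eq]
    omega
  simp [ad, h1, h2, h3]

theorem ad_symm (u v : ℕ) : ad n T u v = ad n T v u := Bool.or_comm _ _

theorem ad_side {u v : ℕ} (h : ad n T u v = true) : (u < n ↔ ¬v < n) := by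
  simp only [ad, Bool.or_eq_true, Bool.and_eq_true, Nat.blt_eq, Nat.ble_eq] at h
  omega

theorem blt_ne {u v : ℕ} : Nat.blt u n ≠ Nat.blt v n ↔ (u < n ↔ ¬v < n) := by
  rw [← Nat.blt_eq, ← Nat.blt_eq]
  cases Nat.blt u n <;> cases Nat.blt v n <;> simp

theorem ctx_ok : (ctx n j T W b w).Ok := by
  refine ⟨fun u v h => (ad_symm v u).trans h, fun u v h => blt_ne.2 (ad_side h), ?_⟩
  refine (bal_lo_hi subset_rfl).trans ?_
  have e : lo n (range (n + n)) = hi n (range (n + n)) := by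
    ext a
    simp only [mem_lo, mem_hi, mem_range]
    omega
  rw [e, sub_self]

theorem toInv {H : ℕ → ℕ → Prop} {E : Er} {m : Mt} (hS : S ⊆ range (n + n))
    (h : PM (lo n S) (hi n S) E m)
    (hH : ∀ a ∈ lo n S, H a (n + (m a).1) ∧ H (n + (m a).1) a) :
    ∃ σ, Pm H S σ ∧ ∀ a ∈ lo n S, σ a = n + (m a).1 := by
  have := pm_of_bij (H := H) (g := fun a => n + (m a).1) (B := (hi n S).image (n + ·))
    (by
      rw [coe_image]
      exact ((add_right_injective n).injOn.bijOn_image).comp h.2) (disj_lo_hi _ _) hH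
  rwa [lo_hi hS] at this

theorem ofInv {H : ℕ → ℕ → Prop} {τ : ℕ → ℕ} (hS : S ⊆ range (n + n)) (h : Pm H S τ)
    (hH : ∀ u v, H u v → (u < n ↔ ¬v < n)) :
    Set.BijOn (fun a => τ a - n) (lo n S) (hi n S) ∧ ∀ a ∈ lo n S, n + (τ a - n) = τ a := by
  have k : ∀ a ∈ lo n S, n + (τ a - n) = τ a := fun a ha => by
    have := hH _ _ (h a (mem_lo.1 ha).2).2.2
    have := (mem_lo.1 ha).1
    omega
  refine ⟨⟨fun a ha => mem_coe.2 (mem_hi.2 ⟨?_, ?_⟩), fun a ha a' ha' e => ?_, fun c hc => ?_⟩, k⟩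
  · have := mem_range.1 (hS (h a (mem_lo.1 ha).2).1)
    have := (mem_lo.1 ha).1
    dsimp only
    omega
  · rw [k a ha]
    exact (h a (mem_lo.1 ha).2).1
  · have e' : τ a = τ a' := by
      rw [← k a ha, ← k a' ha']
      exact congrArg (n + ·) e
    rw [← (h a (mem_lo.1 ha).2).2.1, e', (h a' (mem_lo.1 ha').2).2.1]
  · obtain ⟨c1, c2⟩ := mem_hi.1 hc
    obtain ⟨d1, d2, d3⟩ := h _ c2
    have := hH _ _ d3
    exact ⟨τ (n + c), mem_coe.2 (mem_lo.2 ⟨by omega, d1⟩), by simp [d2]⟩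

theorem cost_lo (F : Finset ℕ) (hS : S ⊆ range (n + n)) (σ : ℕ → ℕ) :
    cost ((ctx n j T W b w).cF F) S σ = ∑ a ∈ lo n S, (ctx n j T W b w).cF F a (σ a) := by
  rw [cost, sum_lo_hi hS, sum_eq_zero (s := hi n S) fun a _ => by simp [Ctx.cF, ctx], add_zero]

theorem cnt_eq (N : ℕ) (A : Vs) : cnt N A = #(fs N A) := by
  rw [cnt, fs, List.countP_eq_length_filter, ← List.toFinset_card_of_nodup
    (List.nodup_range.filter _), List.toFinset_filter, List.toFinset_range]

theorem fs_full (N : ℕ) : fs N (mkV N fun _ => true) = range N :=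
  Finset.ext fun a => by rw [mem_fs_mkV, mem_range, and_iff_left rfl]

theorem mc_full {N : ℕ} {f : ℕ → ℕ × Bool → Bool} {m : Mt}
    (h : PM (range N) (range N) (fun a x => f a x = true) m) (W : Cs) :
    MinC (range N) (range N) (fun a x => f a x = true) (cs W) (gt (mc N (full N f) W)) := by
  have e : ∀ m, PM (range N) (range N) (fun a x => f a x = true) m ↔
      PM (fs N (full N f).1) (fs N (full N f).2.1) (er (full N f).2.2.1) m := fun m => by
    simp only [full, fs_full]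
    exact ⟨fun h => h.mono fun a ha x hx q => (er_mkE _ _ _).2 ⟨mem_range.1 ha, mem_range.1 hx, q⟩,
      fun h => h.mono fun a _ x _ q => ((er_mkE _ _ _).1 q).2.2⟩
  have := mc_spec ((e m).1 h) W
  refine ⟨(e _).2 this.1, fun m' h' => ?_⟩
  have := this.2 m' ((e _).1 h')
  simpa only [full, fs_full] using this

theorem fs_lo {A : Vs} {a : ℕ} (h : a < n) : a ∈ fs (n + n) A ↔ vs A a = true := by
  rw [mem_fs, and_iff_right (by omega)]

theorem fs_hi {A : Vs} {a : ℕ} (h : a < n) : n + a ∈ fs (n + n) A ↔ vs A (n + a) = true := by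
  rw [mem_fs, and_iff_right (by omega)]

variable {F Z D V : Vs}

theorem relE_iff (a c : ℕ) : relE n T F Z D a c = true ↔
    (a < n ∧ c < n ∧ (ctx n j T W b w).H (fs (n + n) F) a (n + c) ∧ a ∉ fs (n + n) D ∧
      n + c ∉ fs (n + n) D) ∨ (a < n ∧ ¬c < n ∧ a ∉ fs (n + n) F ∧ a ∉ fs (n + n) Z) ∨
    (¬a < n ∧ c < n ∧ n + c ∉ fs (n + n) F ∧ n + c ∉ fs (n + n) Z) := by
  by_cases ha : a < n <;> by_cases hc : c < n <;>
    simp [relE, Ctx.H, ctx, ha, hc, fs_lo, fs_hi, ad_lo, Bool.cond_eq_ite, Nat.blt_eq]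
  cases vs F a <;> simp [and_assoc]

theorem relC_real {a c : ℕ} (ha : a < n) (hc : c < n) : (relC n W F a c : ℤ) =
    (ctx n j T W b w).cF (fs (n + n) F) a (n + c) + cs W a (0, false) := by
  simp only [relC, Ctx.cF, ctx, ha, hc, fs_lo, fs_hi, Bool.cond_eq_ite, Nat.blt_eq, if_true,
    Bool.and_eq_true, Bool.not_eq_true', true_and, Nat.add_sub_cancel_left]
  cases vs F a <;> cases vs F (n + c) <;> simp

theorem relC_free {a c : ℕ} (ha : a < n) (hc : ¬c < n) : relC n W F a c = cs W a (0, false) := by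
  simp [relC, ha, hc, Bool.cond_eq_ite, Nat.blt_eq]

theorem relC_dummy {a : ℕ} (ha : ¬a < n) (c : ℕ) : relC n W F a c = 0 := by
  simp [relC, ha, Bool.cond_eq_ite, Nat.blt_eq]

theorem rel_val {i : ℕ} {m : Mt} {σ : ℕ → ℕ} (hS : S ⊆ range (n + n))
    (h1 : ∀ a ∈ lo n S, (m a).1 < n ∧ σ a = n + (m a).1) (h2 : ∀ a < n, a ∉ S → ¬(m a).1 < n) :
    (Sx.val (fun a x => relC n W F a x.1) (range (n + i)) m : ℤ) =
      cost ((ctx n j T W b w).cF (fs (n + n) F)) S σ + base n W := by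
  rw [Sx.val, sum_range_add, sum_eq_zero (s := range i) fun d _ => relC_dummy (by omega) _, add_zero,
    cost_lo _ hS, lo, sum_filter, base, ← sum_add_distrib, Nat.cast_sum]
  refine sum_congr rfl fun a ha => ?_
  have ha := mem_range.1 ha
  by_cases q : a ∈ S
  · obtain ⟨e1, e2⟩ := h1 a (mem_lo.2 ⟨ha, q⟩)
    rw [if_pos q, e2, relC_real (j := j) (T := T) (b := b) (w := w) ha e1]
  · rw [if_neg q, relC_free ha (h2 a ha q), zero_add]

theorem rel_in {U : Finset ℕ} {x : ℤ}
    (h : (ctx n j T W b w).Adm (fs (n + n) F) (fs (n + n) Z) (fs (n + n) D) U x) :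
    ∃ m, PM (range (n + (j - #(fs (n + n) F)))) (range (n + (j - #(fs (n + n) F))))
      (fun a y => relE n T F Z D a y.1 = true) m ∧
      (Sx.val (fun a y => relC n W F a y.1) (range (n + (j - #(fs (n + n) F)))) m : ℤ) =
        x + base n W := by
  have hb := (h.1.bal (ctx_ok.sideH _)).trans ctx_ok.bal
  obtain ⟨⟨hU, μ, h1, rfl⟩, h3, h4, h5, h6⟩ := h
  change U ⊆ range (n + n) at hU
  change #U + _ = 2 * j at h4
  change Pm _ (range (n + n) \ U) μ at h1
  obtain ⟨i, hi'⟩ : ∃ i, i = j - #(fs (n + n) F) := ⟨_, rfl⟩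
  rw [← hi']
  have c1 := card_lo_hi hU
  have c2 := (bal_lo_hi hU).symm.trans hb
  have ex : ∀ A B : Finset ℕ, #A = #B → ∃ g : ℕ → ℕ, Set.BijOn g A B := fun A B e =>
    (Finset.finite_toSet _).exists_bijOn_of_encard_eq (by
      rw [Set.encard_coe_eq_coe_finsetCard, Set.encard_coe_eq_coe_finsetCard, e])
  obtain ⟨g₁, g1⟩ := ex (lo n U) (Ico n (n + i)) (by simp; omega)
  obtain ⟨g₂, g2⟩ := ex (Ico n (n + i)) (hi n U) (by simp; omega)
  obtain ⟨k1, k2⟩ := ofInv sdiff_subset h1 fun u v q => ad_side q.1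
  obtain ⟨m, m1, m2, m3⟩ : ∃ m : Mt, (∀ a < n, a ∉ U → m a = (μ a - n, false)) ∧
      (∀ a < n, a ∈ U → m a = (g₁ a, false)) ∧ ∀ a, n ≤ a → m a = (g₂ a, false) :=
    ⟨fun a => if a < n then if a ∈ U then (g₁ a, false) else (μ a - n, false) else (g₂ a, false),
      fun a q r => by simp [q, r], fun a q r => by simp [q, r], fun a q => by simp [q.not_gt]⟩
  have s1 : ∀ a ∈ lo n (range (n + n) \ U), m a = (μ a - n, false) := fun a ha =>
    m1 a (mem_lo.1 ha).1 (mem_sdiff.1 (mem_lo.1 ha).2).2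
  have s2 : ∀ a ∈ lo n U, m a = (g₁ a, false) := fun a ha => m2 a (mem_lo.1 ha).1 (mem_lo.1 ha).2
  have s3 : ∀ a ∈ Ico n (n + i), m a = (g₂ a, false) := fun a ha => m3 a (mem_Ico.1 ha).1
  have p1 : PM (lo n (range (n + n) \ U)) (hi n (range (n + n) \ U))
      (fun a y => relE n T F Z D a y.1 = true) m := by
    refine ⟨fun a ha => ?_, k1.congr fun a ha => by simp [s1 a ha]⟩
    obtain ⟨a1, a2⟩ := mem_lo.1 ha
    rw [s1 a ha, relE_iff (j := j) (W := W) (b := b) (w := w), k2 a ha]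
    exact Or.inl ⟨a1, (mem_hi.1 (k1.mapsTo ha)).1, (h1 a a2).2.2,
      fun q => (mem_sdiff.1 a2).2 (h6 q), fun q => (mem_sdiff.1 (h1 a a2).1).2 (h6 q)⟩
  have p2 : PM (lo n U) (Ico n (n + i)) (fun a y => relE n T F Z D a y.1 = true) m := by
    refine ⟨fun a ha => ?_, g1.congr fun a ha => by simp [s2 a ha]⟩
    obtain ⟨a1, a2⟩ := mem_lo.1 ha
    rw [s2 a ha, relE_iff (j := j) (W := W) (b := b) (w := w)]
    exact Or.inr (Or.inl ⟨a1, (mem_Ico.1 (g1.mapsTo ha)).1.not_gt, disjoint_left.1 h3 a2,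
      disjoint_left.1 h5 a2⟩)
  have p3 : PM (Ico n (n + i)) (hi n U) (fun a y => relE n T F Z D a y.1 = true) m := by
    refine ⟨fun a ha => ?_, g2.congr fun a ha => by simp [s3 a ha]⟩
    obtain ⟨a1, a2⟩ := mem_hi.1 (g2.mapsTo ha)
    rw [s3 a ha, relE_iff (j := j) (W := W) (b := b) (w := w)]
    exact Or.inr (Or.inr ⟨(mem_Ico.1 ha).1.not_gt, a1, disjoint_left.1 h3 a2,
      disjoint_left.1 h5 a2⟩)
  have p := (p1.glue p2 (disjoint_left.2 fun v q r => (mem_Ico.1 r).1.not_gt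
    (mem_hi.1 q).1)).glue p3 (disjoint_left.2 fun v q r => by
      simp only [mem_union, mem_hi, mem_sdiff, mem_Ico] at q r
      rcases q with q | q
      · exact q.2.2 r.2
      · omega)
  refine ⟨m, ?_, rel_val sdiff_subset (fun a ha => ?_) fun a ha q => ?_⟩
  · convert p using 1
    · ext a
      simp only [mem_union, mem_lo, mem_sdiff, mem_Ico, mem_range]
      by_cases q : a ∈ U <;> simp [q] <;> omega
    · ext a
      simp only [mem_union, mem_hi, mem_sdiff, mem_Ico, mem_range]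
      by_cases q : n + a ∈ U <;> simp [q] <;> omega
  · rw [s1 a ha]
    exact ⟨(mem_hi.1 (k1.mapsTo ha)).1, (k2 a ha).symm⟩
  · have q' : a ∈ U := by
      by_contra r
      exact q (mem_sdiff.2 ⟨mem_range.2 (by omega), r⟩)
    rw [m2 a ha q']
    exact (mem_Ico.1 (g1.mapsTo (mem_lo.2 ⟨ha, q'⟩))).1.not_gt

theorem rel_out {i : ℕ} {t : Tb} (hi' : i + #(fs (n + n) F) = j)
    (h : PM (range (n + i)) (range (n + i)) (fun a y => relE n T F Z D a y.1 = true) (gt t)) :
    (ctx n j T W b w).Adm (fs (n + n) F) (fs (n + n) Z) (fs (n + n) D)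
      (fs (n + n) (unc n (n + i) t))
      (Sx.val (fun a y => relC n W F a y.1) (range (n + i)) (gt t) - base n W) := by
  obtain ⟨U, hU⟩ : ∃ U, U = fs (n + n) (unc n (n + i) t) := ⟨_, rfl⟩
  rw [← hU]
  have sU : U ⊆ range (n + n) := hU ▸ fs_subset _
  have u1 : ∀ a < n, a ∈ U ↔ n ≤ (gt t a).1 := fun a ha => by
    simp [hU, unc, mem_fs_mkV, ha, Bool.cond_eq_ite, Nat.blt_eq, show a < n + n by omega]
  have u2 : ∀ c < n, n + c ∈ U ↔ ∃ d ∈ Ico n (n + i), (gt t d).1 = c := fun c hc => by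
    simp [hU, unc, mem_fs_mkV, hc, Bool.cond_eq_ite, Nat.blt_eq, and_assoc, and_left_comm]
  have ed := fun a (ha : a < n + i) =>
    (relE_iff (j := j) (W := W) (b := b) (w := w) _ _).1 (h.1 a (mem_range.2 ha))
  have inj : ∀ a < n + i, ∀ a' < n + i, (gt t a).1 = (gt t a').1 → a = a' := fun a ha a' ha' e =>
    h.2.injOn (by simpa using ha) (by simpa using ha') e
  have sur : ∀ c < n, n + c ∉ U → ∃ a < n, (gt t a).1 = c := fun c hc q => by
    obtain ⟨a, ha, e⟩ := h.2.surjOn (show c ∈ ((range (n + i) : Finset ℕ) : Set ℕ) by simp; omega)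
    refine ⟨a, not_le.1 fun r => q ((u2 c hc).2 ⟨a, mem_Ico.2 ⟨r, by simpa using ha⟩, e⟩), e⟩
  have l1 : ∀ a, a ∈ lo n (range (n + n) \ U) ↔ a < n ∧ (gt t a).1 < n := fun a => by
    rw [mem_lo, mem_sdiff, mem_range]
    refine and_congr_right fun ha => ?_
    rw [u1 a ha]
    omega
  have p : PM (lo n (range (n + n) \ U)) (hi n (range (n + n) \ U))
      (fun a y => relE n T F Z D a y.1 = true) (gt t) := by
    convert h.sub (S := lo n (range (n + n) \ U)) fun a ha =>
      mem_range.2 (by have := (mem_lo.1 ha).1; omega) using 1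
    ext c
    simp only [img, mem_image, l1, mem_hi, mem_sdiff, mem_range]
    refine ⟨fun q => ?_, ?_⟩
    · obtain ⟨a, ha, e⟩ := sur c q.1 q.2.2
      exact ⟨a, ⟨ha, e ▸ q.1⟩, e⟩
    · rintro ⟨a, ⟨a1, a2⟩, rfl⟩
      refine ⟨a2, by omega, fun q => ?_⟩
      obtain ⟨d, hd, e⟩ := (u2 _ a2).1 q
      have := inj d (mem_Ico.1 hd).2 a (by omega) e
      have := (mem_Ico.1 hd).1
      omega
  have e1 : ∀ a < n, (gt t a).1 < n → (ctx n j T W b w).H (fs (n + n) F) a (n + (gt t a).1) ∧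
      a ∉ fs (n + n) D ∧ n + (gt t a).1 ∉ fs (n + n) D := fun a ha q => by
    have := ed a (by omega)
    tauto
  have e2 : ∀ v ∈ U, v ∉ fs (n + n) F ∧ v ∉ fs (n + n) Z := fun v hv => by
    rw [← lo_hi sU] at hv
    rcases mem_union.1 hv with q | q
    · have a1 := mem_lo.1 q
      have a2 := ((u1 v a1.1).1 a1.2).not_gt
      have := ed v (by omega)
      tauto
    · obtain ⟨c, hc, rfl⟩ := mem_image.1 q
      obtain ⟨d, hd, rfl⟩ := (u2 c (mem_hi.1 hc).1).1 (mem_hi.1 hc).2
      have a2 := (mem_Ico.1 hd).1.not_gt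
      have := ed d (mem_Ico.1 hd).2
      tauto
  obtain ⟨σ, s1, s2⟩ := toInv (H := (ctx n j T W b w).H (fs (n + n) F)) sdiff_subset p
    fun a ha => by
      have := (e1 a ((l1 a).1 ha).1 ((l1 a).1 ha).2).1
      exact ⟨this, ctx_ok.symm _ _ this.1, fun q => this.2 q.symm⟩
  have r : Re ((ctx n j T W b w).H (fs (n + n) F)) ((ctx n j T W b w).cF (fs (n + n) F))
      (range (n + n)) U (Sx.val (fun a y => relC n W F a y.1) (range (n + i)) (gt t) - base n W) :=
    ⟨sU, σ, s1, by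
      rw [rel_val (j := j) (T := T) (b := b) (w := w) (σ := σ) sdiff_subset
        (fun a ha => ⟨((l1 a).1 ha).2, s2 a ha⟩) fun a ha q r =>
          q (mem_lo.1 ((l1 a).2 ⟨ha, r⟩)).2]
      ring⟩
  refine ⟨r, disjoint_left.2 fun v hv => (e2 v hv).1, ?_, disjoint_left.2 fun v hv => (e2 v hv).2,
    fun v hv => ?_⟩
  · have c1 := card_lo_hi sU
    have c2 := (bal_lo_hi sU).symm.trans ((r.bal (ctx_ok.sideH _)).trans ctx_ok.bal)
    have c3 := h.card_img (S := Ico n (n + i)) fun d hd => mem_range.2 (mem_Ico.1 hd).2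
    have c4 : img (gt t) (Ico n (n + i)) = hi n U := by
      ext c
      rw [img, mem_image, mem_hi]
      refine ⟨fun q => ?_, fun q => (u2 c q.1).1 q.2⟩
      obtain ⟨d, hd, e⟩ := id q
      have a2 := (mem_Ico.1 hd).1.not_gt
      have a3 : c < n := by
        have := ed d (mem_Ico.1 hd).2
        rw [e] at this
        tauto
      exact ⟨a3, (u2 c a3).2 q⟩
    rw [c4, Nat.card_Ico] at c3
    change #U + _ = 2 * j
    omega
  · by_contra q
    have hv' := hv
    rw [← lo_hi (fs_subset D)] at hv'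
    rcases mem_union.1 hv' with r | r
    · have a1 := (mem_lo.1 r).1
      exact (e1 v a1 (not_le.1 fun z => q ((u1 v a1).2 z))).2.1 hv
    · obtain ⟨c, hc, rfl⟩ := mem_image.1 r
      obtain ⟨a, ha, rfl⟩ := sur c (mem_hi.1 hc).1 q
      exact (e1 a ha (mem_hi.1 hc).1).2.2 hv

theorem rel_best : (ctx n j T W b w).Best (fs (n + n) F) (fs (n + n) Z) (fs (n + n) D)
    (fs (n + n) (rel n j T W F Z D)) := by
  rintro ⟨U, x, h⟩
  obtain ⟨m, p, -⟩ := rel_in h
  have c : #U + 2 * #(fs (n + n) F) = 2 * j := h.2.2.1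
  obtain ⟨q1, q2⟩ := mc_full p (mkC (n + (j - #(fs (n + n) F))) fun a x => relC n W F a x.1)
  rw [rel, cnt_eq, relN]
  refine ⟨_, rel_out (by omega) q1, fun U' x' h' => ?_⟩
  obtain ⟨m', p', e⟩ := rel_in h'
  have := q2 m' p'
  rw [val_mkC _ subset_rfl subset_rfl q1, val_mkC _ subset_rfl subset_rfl p'] at this
  omega

theorem hasP_iff : hasP n T V = true ↔ Fe (fun u v => ad n T u v = true) (fs (n + n) V) := by
  have e1 : fs n (subJ n T V).1 = lo n (fs (n + n) V) := by
    ext a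
    rw [subJ, mem_fs_mkV, mem_lo]
    exact and_congr_right fun h => (fs_lo h).symm
  have e2 : fs n (subJ n T V).2.1 = hi n (fs (n + n) V) := by
    ext a
    rw [subJ, mem_fs_mkV, mem_hi]
    exact and_congr_right fun h => (fs_hi h).symm
  have e3 := er_mkE (N := n) fun a x => (cell T a x.1).1 && !x.2
  rw [hasP, feas_iff]
  refine ⟨fun ⟨h, _⟩ => ?_, fun ⟨σ, h⟩ => ?_⟩
  · rw [e1, e2] at h
    obtain ⟨σ, s, -⟩ := toInv (H := fun u v => ad n T u v = true) (fs_subset V) h fun a ha => by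
      have := ((e3 _ _).1 (h.1 a ha)).2.2
      rw [ad_symm (n + _), ad_lo (mem_lo.1 ha).1, and_self]
      exact (Bool.and_eq_true _ _ ▸ this).1
    exact ⟨σ, s⟩
  · obtain ⟨k1, k2⟩ := ofInv (fs_subset V) h fun u v => ad_side
    have p := (mc_spec (J := subJ n T V) (N := n) (m := fun a => (σ a - n, false)) (by
      rw [e1, e2]
      refine ⟨fun a ha => (e3 _ _).2 ⟨(mem_lo.1 ha).1, (mem_hi.1 (k1.mapsTo ha)).1, ?_⟩, k1⟩
      have := (h a (mem_lo.1 ha).2).2.2
      rw [← k2 a ha, ad_lo (mem_lo.1 ha).1] at this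
      simp [this]) []).1
    refine ⟨p, ?_⟩
    change Sx.val _ _ _ = 0
    refine sum_eq_zero fun a ha => ?_
    have := ((e3 _ _).1 (p.1 a ha)).2.2
    simp only [Bool.and_eq_true, Bool.not_eq_true'] at this
    simp [lc, this.2]

theorem fin_spec {k : ℕ} {y : ℤ} (hk : j + k = n)
    (hW : ∀ a < n, ∀ c < n, cs W a (c, false) = cs W a (0, false))
    (h : (ctx n j T W b w).Adm (fs (n + n) F) ∅ ∅ (fs (n + n) V) y)
    (hf : Fe (fun u v => ad n T u v = true) (fs (n + n) V)) :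
    PM (range n) (range n) (fun a x => (cell T a x.1).1 = true) (gt (finT n T W F V)) ∧
      Sx.lab (range n) (gt (finT n T W F V)) = k ∧
      (Sx.val (cs W) (range n) (gt (finT n T W F V)) : ℤ) ≤ y + base n W := by
  obtain ⟨⟨hU, μ, h1, rfl⟩, h3, h4, -, -⟩ := h
  obtain ⟨σ, hσ⟩ := hf
  change Pm _ (range (n + n) \ _) μ at h1
  change _ = 2 * j at h4
  have p0 := swap_pm (H := fun u v => ad n T u v = true) (K := fs (n + n) V)
    (h1.mono fun v _ q => q.1) hσ (fun v q r => absurd r (mem_sdiff.1 q).2) fun v q _ => (hσ v q).1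
  rw [inter_self, Finset.sdiff_idem, sdiff_union_of_subset (fs_subset V)] at p0
  obtain ⟨k1, k2⟩ := ofInv subset_rfl p0 fun u v => ad_side
  have f1 : lo n (range (n + n)) = range n := by
    ext a
    simp only [mem_lo, mem_range]
    omega
  have f2 : hi n (range (n + n)) = range n := by
    ext a
    simp only [mem_hi, mem_range]
    omega
  rw [f1] at k1 k2
  rw [f2] at k1
  obtain ⟨τ, hτ⟩ : ∃ τ : ℕ → ℕ, τ = fun v => if v ∈ fs (n + n) V then σ v else μ v := ⟨_, rfl⟩
  have t0 : ∀ v, (if v ∈ fs (n + n) V then σ v else μ v) = τ v := fun v => by rw [hτ]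
  simp only [t0] at k1 k2
  rw [← hτ] at p0
  have key : ∀ a < n, ∃ c < n, τ a = n + c ∧ (cell T a c).1 = true ∧
      ((vs V a = true ∧ vs V (n + c) = true) ∨ (vs V a = false ∧ vs V (n + c) = false ∧ μ a = n + c ∧
        ¬(vs F a = true ∧ vs F (n + c) = true))) := fun a ha => by
    have a1 := mem_range.2 ha
    have a2 : τ a - n < n := mem_range.1 (k1.mapsTo a1)
    have a3 := (p0 a (mem_range.2 (by omega))).2.2
    refine ⟨τ a - n, a2, (k2 a a1).symm, by rwa [← k2 a a1, ad_lo ha] at a3, ?_⟩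
    rw [← Bool.not_eq_true, ← Bool.not_eq_true, ← fs_lo ha, ← fs_lo ha, ← fs_hi a2, ← fs_hi a2,
      k2 a a1, ← t0]
    by_cases q : a ∈ fs (n + n) V
    · exact Or.inl ⟨q, by rw [if_pos q]; exact (hσ a q).1⟩
    · have := h1 a (mem_sdiff.2 ⟨mem_range.2 (by omega), q⟩)
      rw [if_neg q]
      exact Or.inr ⟨q, (mem_sdiff.1 this.1).2, rfl, this.2.2.2⟩
  have p : PM (range n) (range n) (fun a x => finE n T F V a x = true)
      fun a => (τ a - n, !vs V a && !vs F a && !vs F (τ a)) := ⟨fun a ha => by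
    obtain ⟨c, -, c2, c3, c4⟩ := key a (mem_range.1 ha)
    simp only [finE, c2, Nat.add_sub_cancel_left, c3]
    revert c4
    cases vs V a <;> cases vs V (n + c) <;> cases vs F a <;> cases vs F (n + c) <;> simp, k1⟩
  obtain ⟨q1, q2⟩ := mc_full p W
  change PM _ _ _ (gt (finT n T W F V)) at q1
  refine ⟨q1.mono fun a _ x _ q => (Bool.and_eq_true _ _ ▸ q).1, ?_, ?_⟩
  · have d : ∀ v < n + n, ¬(vs V v = true ∧ vs F v = true) := fun v hv q =>
      disjoint_left.1 h3 (mem_fs.2 ⟨hv, q.1⟩) (mem_fs.2 ⟨hv, q.2⟩)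
    have s1 : ∑ a ∈ range n, (((vs V a).toNat + 2 * (vs F a).toNat) +
        ((vs V (n + (gt (finT n T W F V) a).1)).toNat +
          2 * (vs F (n + (gt (finT n T W F V) a).1)).toNat) + 2 * lc a (gt (finT n T W F V) a)) =
        ∑ a ∈ range n, 2 := sum_congr rfl fun a ha => by
      have a1 := q1.1 a ha
      have a2 := d a (by have := mem_range.1 ha; omega)
      have a3 := d (n + (gt (finT n T W F V) a).1) (by have := mem_range.1 (q1.mem ha); omega)
      simp only [finE, lc] at a1 ⊢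
      revert a1 a2 a3
      cases vs V a <;> cases vs V (n + _) <;> cases vs F a <;> cases vs F (n + _) <;>
        cases (gt (finT n T W F V) a).2 <;> simp
    have s2 : ∀ A : Vs, ∑ v ∈ range (n + n), (vs A v).toNat = #(fs (n + n) A) := fun A => by
      rw [fs, card_filter]
      exact sum_congr rfl fun v _ => by cases vs A v <;> simp
    rw [sum_add_distrib, sum_add_distrib,
      q1.sum_head fun c => (vs V (n + c)).toNat + 2 * (vs F (n + c)).toNat,
      ← sum_range_add fun v => (vs V v).toNat + 2 * (vs F v).toNat, sum_add_distrib, ← mul_sum,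
      ← mul_sum, s2, s2, sum_const, card_range, smul_eq_mul] at s1
    unfold Sx.lab Sx.val
    omega
  · refine (Nat.cast_le.2 (q2 _ p)).trans (le_of_eq ?_)
    change _ = cost _ (range (n + n) \ _) μ + _
    rw [cost_lo _ sdiff_subset, lo, sum_filter, base, ← sum_add_distrib, Sx.val, Nat.cast_sum]
    refine sum_congr rfl fun a ha => ?_
    have ha := mem_range.1 ha
    obtain ⟨c, c1, c2, -, c4⟩ := key a ha
    have a1 : a < n + n := by omega
    rcases c4 with ⟨d1, -⟩ | ⟨d1, -, d2, -⟩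
    · simp [c2, d1, fs_lo ha, hW a ha c c1]
    · simp only [c2, d1, d2, Nat.add_sub_cancel_left, mem_sdiff, mem_range, a1, fs_lo ha, Ctx.cF, ctx,
        fs_hi c1, ha]
      cases vs F a <;> cases vs F (n + c) <;> simp [hW a ha c c1]

theorem good_of_pm {k : ℕ} {m : Mt} (hk : j + k = n)
    (hW : ∀ a < n, ∀ c < n, cs W a (c, false) = cs W a (0, false))
    (h : PM (range n) (range n) (fun a x => (cell T a x.1).1 = true) m) (hl : Sx.lab (range n) m = k) :
    ∃ U, (ctx n j T W b (Sx.val (cs W) (range n) m - base n W)).Good ∅ U := by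
  obtain ⟨R, hR⟩ : ∃ R, R = (range n).filter fun a => (m a).2 = false := ⟨_, rfl⟩
  have sR : R ⊆ range n := hR ▸ filter_subset _ _
  have sI : img m R ⊆ range n := h.img_eq ▸ image_subset_image sR
  obtain ⟨U, hU⟩ : ∃ U, U = R ∪ (img m R).image (n + ·) := ⟨_, rfl⟩
  have u1 : ∀ a < n, a ∈ U ↔ a ∈ R := fun a ha => by
    simp only [hU, mem_union, mem_image]
    exact or_iff_left fun ⟨c, _, e⟩ => by omega
  have u2 : ∀ c, n + c ∈ U ↔ c ∈ img m R := fun c => by
    rw [hU, mem_union, or_iff_right fun q => by have := mem_range.1 (sR q); omega, mem_image]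
    exact ⟨fun ⟨d, q, e⟩ => Nat.add_left_cancel e ▸ q, fun q => ⟨c, q, rfl⟩⟩
  have sU : U ⊆ range (n + n) := hU ▸ union_subset (fun v q => mem_range.2 (by
    have := mem_range.1 (sR q); omega)) fun v q => by
      obtain ⟨c, r, rfl⟩ := mem_image.1 q
      have := mem_range.1 (sI r)
      exact mem_range.2 (by omega)
  have l1 : lo n U = R := by
    ext a
    rw [mem_lo]
    exact ⟨fun q => (u1 a q.1).1 q.2, fun q => ⟨mem_range.1 (sR q), (u1 a (mem_range.1 (sR q))).2 q⟩⟩
  have l2 : hi n U = img m R := by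
    ext a
    rw [mem_hi, u2]
    exact and_iff_right_of_imp fun q => mem_range.1 (sI q)
  have l3 : lo n (range (n + n) \ U) = range n \ R := by
    ext a
    simp only [mem_lo, mem_sdiff, mem_range]
    refine and_congr_right fun q => ?_
    rw [u1 a q, and_iff_right (by omega)]
  have l4 : hi n (range (n + n) \ U) = range n \ img m R := by
    ext a
    simp only [mem_hi, mem_sdiff, mem_range, u2]
    exact and_congr_right fun q => and_iff_right (by omega)
  have g : ∀ a ∈ range n, ad n T a (n + (m a).1) = true ∧ ad n T (n + (m a).1) a = true :=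
    fun a ha => by
      rw [ad_symm (n + _), ad_lo (mem_range.1 ha), and_self]
      exact h.1 a ha
  obtain ⟨σ, s1, -⟩ := toInv (H := fun u v => ad n T u v = true) (m := m) sU
    (by rw [l1, l2]; exact h.sub sR) fun a ha => g a (sR (l1 ▸ ha))
  obtain ⟨μ, s2, s3⟩ := toInv (H := (ctx n j T W b (Sx.val (cs W) (range n) m - base n W)).H ∅)
    (m := m) (S := range (n + n) \ U) sdiff_subset (by rw [l3, l4]; exact h.sdiff sR)
    fun a ha => by simpa [Ctx.H, ctx] using g a (mem_sdiff.1 (l3 ▸ ha)).1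
  refine ⟨U, _, le_of_eq ?_, ⟨⟨sU, μ, s2, rfl⟩, by simp, ?_, by simp, by simp⟩, σ, s1⟩
  · change cost _ (range (n + n) \ U) μ = (Sx.val (cs W) (range n) m : ℤ) - base n W
    rw [cost_lo _ sdiff_subset, sum_congr rfl fun a ha => by rw [s3 a ha], l3, Sx.val, base,
      Nat.cast_sum, ← sum_sub_distrib, ← sum_sdiff sR, sum_eq_zero (s := R), add_zero]
    · refine sum_congr rfl fun a ha => ?_
      obtain ⟨a1, a2⟩ := mem_sdiff.1 ha
      have a3 : (m a).2 = true := by simpa [hR, a1] using a2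
      simp [Ctx.cF, ctx, mem_range.1 a1, ← a3]
    · intro a ha
      have a1 := sR ha
      have a2 : (m a).2 = false := by simpa [hR, a1] using ha
      rw [← hW a (mem_range.1 a1) _ (mem_range.1 (h.mem a1)), ← a2, sub_self]
  · have c1 := card_lo_hi sU
    have c2 : Sx.lab (range n) m + #R = n := by
      rw [hR, card_filter, Sx.lab, Sx.val, ← sum_add_distrib, sum_congr rfl (g := fun _ => 1)
        fun a _ => by cases e : (m a).2 <;> simp [lc, e]]
      simp
    rw [l1, l2, h.card_img sR] at c1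
    change #U + _ = 2 * j
    rw [card_empty]
    omega

end Pool.Agent.Lib.MP_be0860_lc.Bi
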