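import Pool.Agent.Lib.MP_be0860_lc.QDefs

/-!
Bipartite graphs without large balanced independent sets.
-/

set_option autoImplicit false

namespace Pool.Agent.Lib.MP_be0860_lc

/-- Any `β` vertices of the left side and any `β` vertices of the right side are joined by an
edge; that is, the bipartite independence number is less than `β`. -/
def QInst.Dense (I : QInst) (β : ℕ) : Prop :=
  ∀ (X : Finset (Fin I.a)) (Y : Finset (Fin I.b)), X.card = β → Y.card = β →
    ∃ x ∈ X, ∃ y ∈ Y, I.adj x y = true

end Pool.Agent.Lib.MP_be0860_lc
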