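import Pool.Agent.Lib.MP_be0860_lc.Bi.Alg

/-!
The algorithm for graphs of small bipartite independence number: guessing and checking.
-/

set_option autoImplicit false

namespace Pool.Agent.Lib.MP_be0860_lc.Bi

open Pool.Agent.Shared.PolyTime Finset Sx

/-- the empty set -/
def emp (n : ℕ) : Vs := mkV (n + n) fun _ => false

/-- the first vertices on the left -/
def lamA (n J : ℕ) (U : Vs) : List ℕ := ((List.range n).filter fun v => vs U v).take J

/-- the first vertices on the right -/
def lamB (n J : ℕ) (U : Vs) : List ℕ := ((List.range n).filter fun v => vs U (n + v)).take J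

/-- the first vertices on both sides -/
def lamV (n J : ℕ) (U : Vs) : Vs := mkV (n + n) fun v =>
  cond (Nat.blt v n) ((lamA n J U).contains v) ((lamB n J U).contains (v - n))

/-- number of neighbours in a set -/
def deg (n : ℕ) (T : Tc) (A : Vs) (v : ℕ) : ℕ :=
  (List.range (n + n)).countP fun z => vs A z && ad n T v z

/-- vertices with few neighbours -/
def lowV (n : ℕ) (T : Tc) (b : ℕ) (A : Vs) : Vs :=
  mkV (n + n) fun v => Nat.blt (deg n T A v) (13 * b)

/-- the union of two sets as a list -/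
def gl (n : ℕ) (L A : Vs) : List ℕ := (List.range (n + n)).filter fun v => vs L v || vs A v

/-- a subset read from a string -/
def selV (n : ℕ) (l g : List ℕ) (c : ℕ) : Vs := mkV (n + n) fun v =>
  (List.range l.length).any fun i => l.getD i 0 == v && g.getD i 0 == c

/-- the unconstrained relaxation -/
def rel0 (n j : ℕ) (T : Tc) (W : Cs) : Vs := rel n j T W (emp n) (emp n) (emp n)

/-- the guessed relaxation -/
def bigV (n j : ℕ) (T : Tc) (W : Cs) (L A : Vs) (g : List ℕ) : Vs × Vs :=
  (selV n (gl n L A) g 1, rel n j T W (selV n (gl n L A) g 1) L (selV n (gl n L A) g 2))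

/-- a balanced set with large degrees has a perfect matching -/
def okV (n : ℕ) (T : Tc) (b : ℕ) (V : Vs) : Bool :=
  !(((List.range n).countP fun v => vs V v) == ((List.range n).countP fun v => vs V (n + v)) &&
    (List.range (n + n)).all fun v => !vs V v || Nat.ble b (deg n T V v)) || hasP n T V

/-- one more round -/
def poolS (n j : ℕ) (T : Tc) (W : Cs) (F Z : Vs) : Vs :=
  mkV (n + n) fun v => vs Z v || vs (rel n j T W F Z (emp n)) v

/-- the pool after `i` rounds -/
def pool (n j : ℕ) (T : Tc) (W : Cs) (F : Vs) (i : ℕ) : Vs := (poolS n j T W F)^[i] (emp n)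

/-- the vertices to branch on -/
def candL (n : ℕ) (T : Tc) (b : ℕ) (Z : Vs) : List ℕ :=
  (List.range (n + n)).filter fun u => vs Z u || Nat.ble b ((List.range (n + n)).countP fun z =>
    vs Z z && !(Nat.blt z n == Nat.blt u n) && !ad n T z u)

/-- insertion -/
def ins (n : ℕ) (F : Vs) (u : ℕ) : Vs := mkV (n + n) fun v => vs F v || v == u

/-- one branching step -/
def stepS (n j : ℕ) (T : Tc) (W : Cs) (b : ℕ) (s : Vs × List ℕ) : Vs × List ℕ :=
  (ins n s.1 ((candL n T b (pool n j T W s.1 (s.2.getD 0 0))).getD (s.2.getD 1 0) 0), s.2.drop 2)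

/-- several steps -/
def run (n j : ℕ) (T : Tc) (W : Cs) (b t : ℕ) (g : List ℕ) : Vs × List ℕ :=
  (stepS n j T W b)^[t] (emp n, g)

/-- bound for the size of the pool -/
def parM (b : ℕ) : ℕ := 28 * b ^ 2 * (28 * b ^ 3 + 1)

/-- bits of a digit -/
def parD (b : ℕ) : ℕ := (b + 1) * (5 * Nat.size b + 11)

/-- bits of a string -/
def parS (b : ℕ) : ℕ := (30 * b ^ 2 + 1) * parD b

/-- the base -/
def parB (p b : ℕ) : ℕ := (fun y => min (y + y) p)^[parD b] 1

/-- a small pool gives few vertices to branch on -/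
def okS (n : ℕ) (T : Tc) (b B : ℕ) (Z : Vs) : Bool :=
  !Nat.ble (cnt (n + n) Z) (parM b) || Nat.ble (candL n T b Z).length B

/-- all strings -/
def strs (p b : ℕ) : List (List ℕ) := (List.range p).map (dig (parB p b) (30 * b ^ 2))

/-- candidates if many edges are not counted -/
def candB (p b n j : ℕ) (T : Tc) (W : Cs) (A : Vs) : List Tb :=
  (strs p b).map fun g => finT n T W (bigV n j T W (lowV n T b A) A g).1
    (bigV n j T W (lowV n T b A) A g).2

/-- candidates if few edges are not counted -/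
def candS (p b n j : ℕ) (T : Tc) (W : Cs) : List Tb :=
  (strs p b).flatMap fun g => (List.range (n + n + 1)).map fun v =>
    finT n T W (ins n (run n j T W b (j - 1) g).1 v) (emp n)

/-- all candidates -/
def cands (p b n j : ℕ) (T : Tc) (W : Cs) : List Tb :=
  cond (Nat.ble (14 * b ^ 2) j) (candB p b n j T W (lamV n (14 * b ^ 2) (rel0 n j T W)))
    (candS p b n j T W)

/-- checks if many edges are not counted -/
def chkB (p b n j : ℕ) (T : Tc) (W : Cs) (U : Vs) : Bool :=
  (!(Nat.ble (14 * b ^ 2) (lamA n (14 * b ^ 2) U).length &&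
      Nat.ble (14 * b ^ 2) (lamB n (14 * b ^ 2) U).length) ||
    Nat.ble (cnt (n + n) (lowV n T b (lamV n (14 * b ^ 2) U))) (2 * b)) &&
  (strs p b).all fun g => okV n T b
    (bigV n j T W (lowV n T b (lamV n (14 * b ^ 2) U)) (lamV n (14 * b ^ 2) U) g).2

/-- checks if few edges are not counted -/
def chkS (p b n j : ℕ) (T : Tc) (W : Cs) : Bool :=
  (strs p b).all fun g => (List.range j).all fun t => okS n T b (parB p b)
    (pool n j T W (run n j T W b t g).1 ((run n j T W b t g).2.getD 0 0))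

/-- all checks -/
def chk (p b n j : ℕ) (T : Tc) (W : Cs) : Bool :=
  cond (Nat.ble (14 * b ^ 2) j) (chkB p b n j T W (rel0 n j T W)) (chkS p b n j T W)

variable {p n j b J : ℕ} {T : Tc} {W : Cs} {w : ℤ} {F Z A L U V : Vs}

theorem len_filter (N : ℕ) (q : ℕ → Bool) :
    ((List.range N).filter q).length = #((range N).filter fun v => q v = true) := by
  rw [← List.toFinset_card_of_nodup (List.nodup_range.filter _), List.toFinset_filter,
    List.toFinset_range]

theorem cntP (N : ℕ) (q : ℕ → Bool) :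
    (List.range N).countP q = #((range N).filter fun v => q v = true) := by
  rw [List.countP_eq_length_filter, len_filter]

theorem fs_emp : fs (n + n) (emp n) = ∅ := by
  ext v
  simp [emp, mem_fs_mkV]

theorem mem_ins {u v : ℕ} : v ∈ fs (n + n) (ins n F u) ↔ v ∈ fs (n + n) F ∨ (v < n + n ∧ v = u) := by
  simp only [ins, mem_fs_mkV, Bool.or_eq_true, beq_iff_eq]
  rw [mem_fs]
  tauto

theorem fs_ins {u : ℕ} (h : u < n + n) : fs (n + n) (ins n F u) = insert u (fs (n + n) F) := by
  ext v
  rw [mem_ins, mem_insert, or_comm]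
  exact or_congr ⟨fun q => q.2, fun q => ⟨q ▸ h, q⟩⟩ Iff.rfl

theorem fs_ins' : fs (n + n) (ins n F (n + n)) = fs (n + n) F := by
  ext v
  rw [mem_ins]
  exact or_iff_left (by omega)

theorem lo_fs : lo n (fs (n + n) U) = (range n).filter fun v => vs U v = true :=
  filter_congr fun _ h => fs_lo (mem_range.1 h)

theorem hi_fs : hi n (fs (n + n) U) = (range n).filter fun v => vs U (n + v) = true :=
  filter_congr fun _ h => fs_hi (mem_range.1 h)

theorem mem_take {q : ℕ → Bool} {v : ℕ} (h : v ∈ ((List.range n).filter q).take J) :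
    v < n ∧ q v = true := by
  simpa using List.mem_of_mem_take h

theorem lo_lam : lo n (fs (n + n) (lamV n J U)) = (lamA n J U).toFinset := by
  ext v
  simp only [mem_lo, lamV, mem_fs_mkV, List.mem_toFinset]
  refine ⟨fun q => by simpa [Nat.blt_eq.mpr q.1] using q.2.2, fun q => ?_⟩
  have := (mem_take q).1
  exact ⟨this, by omega, by simpa [Nat.blt_eq.mpr this] using q⟩

theorem hi_lam : hi n (fs (n + n) (lamV n J U)) = (lamB n J U).toFinset := by
  ext v
  have e : Nat.blt (n + v) n = false := by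
    rw [← Bool.not_eq_true, Nat.blt_eq]
    omega
  simp only [mem_hi, lamV, mem_fs_mkV, List.mem_toFinset, e]
  refine ⟨fun q => by simpa using q.2.2, fun q => ?_⟩
  have := (mem_take q).1
  exact ⟨this, by omega, by simpa using q⟩

theorem card_lamA : #(lo n (fs (n + n) (lamV n J U))) = (lamA n J U).length := by
  rw [lo_lam, List.toFinset_card_of_nodup]
  exact (List.nodup_range.filter _).sublist (List.take_sublist _ _)

theorem card_lamB : #(hi n (fs (n + n) (lamV n J U))) = (lamB n J U).length := by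
  rw [hi_lam, List.toFinset_card_of_nodup]
  exact (List.nodup_range.filter _).sublist (List.take_sublist _ _)

theorem len_lamA : (lamA n J U).length = min J #(lo n (fs (n + n) U)) := by
  rw [lamA, List.length_take, len_filter, lo_fs]

theorem len_lamB : (lamB n J U).length = min J #(hi n (fs (n + n) U)) := by
  rw [lamB, List.length_take, len_filter, hi_fs]

theorem lam_subset : fs (n + n) (lamV n J U) ⊆ fs (n + n) U := by
  rw [← lo_hi (fs_subset (lamV n J U)), lo_lam, hi_lam]
  refine union_subset (fun v q => ?_) fun v q => ?_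
  · have := mem_take (List.mem_toFinset.1 q)
    exact (fs_lo this.1).2 this.2
  · obtain ⟨c, r, rfl⟩ := mem_image.1 q
    have := mem_take (List.mem_toFinset.1 r)
    exact (fs_hi this.1).2 this.2

open Classical in
theorem deg_eq (v : ℕ) :
    deg n T A v = #((fs (n + n) A).filter ((ctx n j T W b w).G v)) := by
  rw [deg, cntP, fs, filter_filter]
  congr 1
  ext z
  simp [ctx]

theorem low_eq : fs (n + n) (lowV n T b A) = (ctx n j T W b w).low (fs (n + n) A) := by
  ext v
  rw [lowV, mem_fs_mkV, Nat.blt_eq, deg_eq (j := j) (W := W) (b := b) (w := w), Ctx.low,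
    mem_filter]
  exact and_congr mem_range.symm Iff.rfl

theorem mem_candL {u : ℕ} : u ∈ candL n T b Z ↔ u < n + n ∧
    (u ∈ fs (n + n) Z ∨ b ≤ #((ctx n j T W b w).non (fs (n + n) Z) u)) := by
  have e : ((range (n + n)).filter fun z => (vs Z z && !(Nat.blt z n == Nat.blt u n) &&
      !ad n T z u) = true) = (ctx n j T W b w).non (fs (n + n) Z) u := by
    ext z
    simp [Ctx.non, ctx, mem_fs, and_assoc]
  simp only [candL, List.mem_filter, List.mem_range, Bool.or_eq_true, Nat.ble_eq, cntP, e, mem_fs]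
  tauto

theorem parB_eq (h : 2 ^ parS b ≤ p) : parB p b = 2 ^ parD b := by
  have h1 : parD b ≤ parS b := Nat.le_mul_of_pos_left _ (by omega)
  have key : ∀ i ≤ parD b, (fun y => min (y + y) p)^[i] 1 = 2 ^ i := fun i hi => by
    induction i with
    | zero => rfl
    | succ i ih =>
      rw [Function.iterate_succ_apply', ih (by omega), ← two_mul, ← pow_succ']
      exact min_eq_left ((Nat.pow_le_pow_right two_pos (by omega)).trans h)
  exact key _ le_rfl

theorem strs_surj (h : 2 ^ parS b ≤ p) {g : List ℕ} (hg : ∀ x ∈ g, x < 2 ^ parD b)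
    (hl : g.length ≤ 30 * b ^ 2) : ∃ g', g ++ g' ∈ strs p b := by
  obtain ⟨i, hi, e⟩ := dig_surj (by positivity) hg hl
  refine ⟨List.replicate (30 * b ^ 2 - g.length) 0,
    List.mem_map.2 ⟨i, List.mem_range.2 (hi.trans_le (le_trans ?_ h)), ?_⟩⟩
  · rw [← pow_mul]
    refine Nat.pow_le_pow_right two_pos ?_
    rw [parS, mul_comm]
    exact Nat.mul_le_mul_right _ (by omega)
  · rw [parB_eq h, e]

theorem parM_le : parM b ≤ 2 ^ (5 * Nat.size b + 10) := by
  have h1 : b ^ 5 ≤ 2 ^ (5 * Nat.size b) := by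
    rw [mul_comm, pow_mul]
    exact Nat.pow_le_pow_left (Nat.lt_size_self b).le _
  have h2 : b ^ 2 ≤ b ^ 5 := by
    rcases b.eq_zero_or_pos with rfl | h
    · simp
    · exact Nat.pow_le_pow_right h (by omega)
  rw [parM, pow_add, show 28 * b ^ 2 * (28 * b ^ 3 + 1) = 784 * b ^ 5 + 28 * b ^ 2 by ring]
  omega

theorem par_big : parM b + b * parM b ^ b ≤ 2 ^ parD b := by
  have h1 := parM_le (b := b)
  obtain ⟨y, hy⟩ : ∃ y, y = 2 ^ (5 * Nat.size b + 10) := ⟨_, rfl⟩
  have y0 : 0 < y := by rw [hy]; positivity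
  have h2 : b ≤ y := by
    rw [hy]
    exact (Nat.lt_size_self b).le.trans (Nat.pow_le_pow_right two_pos (by omega))
  have h3 : 2 ^ parD b = (2 * y) ^ (b + 1) := by
    rw [parD, mul_comm, pow_mul, hy, ← pow_succ']
  rw [← hy] at h1
  have h4 : b * parM b ^ b ≤ y ^ (b + 1) := by
    rw [pow_succ']
    exact Nat.mul_le_mul h2 (Nat.pow_le_pow_left h1 _)
  have h5 : y ≤ y ^ (b + 1) := Nat.le_self_pow (by omega) _
  have h6 : 2 ≤ 2 ^ (b + 1) := Nat.le_self_pow (by omega) _
  have h7 := Nat.mul_le_mul_right (y ^ (b + 1)) h6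
  rw [h3, mul_pow]
  omega

theorem par_two : 2 < 2 ^ parD b := by
  have : 2 ≤ parD b := le_trans (by omega) (Nat.le_mul_of_pos_left _ (Nat.succ_pos b))
  exact lt_of_lt_of_le (by norm_num) (Nat.pow_le_pow_right two_pos this)

theorem mem_selV {l g' : List ℕ} {f : ℕ → ℕ} {c v : ℕ} :
    v ∈ fs (n + n) (selV n l (l.map f ++ g') c) ↔ v < n + n ∧ v ∈ l ∧ f v = c := by
  simp only [selV, mem_fs_mkV, List.any_eq_true, List.mem_range, Bool.and_eq_true, beq_iff_eq]
  have e : ∀ i (h : i < l.length), l.getD i 0 = l[i] ∧ (l.map f ++ g').getD i 0 = f l[i] :=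
    fun i h => ⟨List.getD_eq_getElem _ _ h, by
      rw [List.getD_append _ _ _ _ (by simpa using h), List.getD_eq_getElem _ _ (by simpa using h),
        List.getElem_map]⟩
  refine and_congr_right fun _ => ⟨fun ⟨i, h, h1, h2⟩ => ?_, fun ⟨h1, h2⟩ => ?_⟩
  · rw [(e i h).1] at h1
    rw [(e i h).2, h1] at h2
    exact ⟨h1 ▸ List.getElem_mem h, h2⟩
  · obtain ⟨i, h, rfl⟩ := List.getElem_of_mem h1
    exact ⟨i, h, (e i h).1, (e i h).2.trans h2⟩

/-- the candidate comes from a cheap solution that can be completed -/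
def Win (n j : ℕ) (T : Tc) (W : Cs) (b : ℕ) (w : ℤ) (t : Tb) : Prop :=
  ∃ F V, t = finT n T W F V ∧ (ctx n j T W b w).Good (fs (n + n) F) (fs (n + n) V)

theorem winB (hp : 2 ^ parS b ≤ p) (hj : 14 * b ^ 2 ≤ j) {U₁ : Finset ℕ}
    (h : (ctx n j T W b w).Good ∅ U₁) (hc : chkB p b n j T W (rel0 n j T W) = true) :
    ∃ t ∈ candB p b n j T W (lamV n (14 * b ^ 2) (rel0 n j T W)), Win n j T W b w t := by
  classical
  have h0 : (ctx n j T W b w).Best ∅ ∅ ∅ (fs (n + n) (rel0 n j T W)) := by
    have := rel_best (n := n) (j := j) (b := b) (T := T) (W := W) (w := w) (F := emp n)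
      (Z := emp n) (D := emp n)
    rwa [fs_emp] at this
  generalize rel0 n j T W = U at h0 hc ⊢
  obtain ⟨x₀, a0, -⟩ := h0 (h.elim fun x q => ⟨U₁, x, q.2.1⟩)
  have c1 := card_lo_hi (fs_subset (N := n + n) U)
  have c2 := (bal_lo_hi (fs_subset (N := n + n) U)).symm.trans
    ((a0.1.bal (ctx_ok.sideH _)).trans ctx_ok.bal)
  have c3 : #(fs (n + n) U) + 2 * 0 = 2 * j := a0.2.2.1
  have l1 := len_lamA (n := n) (J := 14 * b ^ 2) (U := U)
  have l2 := len_lamB (n := n) (J := 14 * b ^ 2) (U := U)
  simp only [chkB, Bool.and_eq_true, Bool.or_eq_true, Bool.not_eq_true',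
    List.all_eq_true, cnt_eq, Nat.ble_eq, ← Bool.not_eq_true] at hc
  have cA := card_lo_hi (fs_subset (N := n + n) (lamV n (14 * b ^ 2) U))
  rw [card_lamA, card_lamB] at cA
  have sA := lam_subset (n := n) (J := 14 * b ^ 2) (U := U)
  generalize lamV n (14 * b ^ 2) U = A at hc cA sA ⊢
  have hL : #(fs (n + n) (lowV n T b A)) ≤ 2 * b := by omega
  have eL := low_eq (n := n) (j := j) (b := b) (T := T) (W := W) (w := w) (A := A)
  obtain ⟨F, f1, D, d1, fd, hV⟩ := large ctx_ok h0 h sA (eL ▸ hL)
  rw [← eL] at f1 hV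
  unfold candB
  generalize lowV n T b A = L at hc hL f1 hV ⊢
  have ml : ∀ v, v ∈ gl n L A ↔ v ∈ fs (n + n) L ∪ fs (n + n) A := fun v => by
    simp only [gl, List.mem_filter, List.mem_range, Bool.or_eq_true, mem_union, mem_fs]
    tauto
  obtain ⟨g', hg⟩ := strs_surj hp (g := (gl n L A).map fun v => if v ∈ F then 1 else if v ∈ D then 2
    else 0) (fun x hx => by
      obtain ⟨v, -, rfl⟩ := List.mem_map.1 hx
      have := par_two (b := b)
      split_ifs <;> omega) (by
      rw [List.length_map, gl, ← List.toFinset_card_of_nodup (List.nodup_range.filter _)]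
      refine (card_le_card fun v hv => (ml v).1 (List.mem_toFinset.1 hv)).trans
        ((card_union_le _ _).trans ?_)
      have : b ≤ b ^ 2 := Nat.le_self_pow (by omega) _
      omega)
  have e1 : fs (n + n) (selV n (gl n L A) (((gl n L A).map fun v => if v ∈ F then 1 else
      if v ∈ D then 2 else 0) ++ g') 1) = F := by
    ext v
    rw [mem_selV, ml]
    refine ⟨fun q => ?_, fun q => ⟨(mem_fs.1 (f1 q)).1, mem_union_left _ (f1 q), if_pos q⟩⟩
    by_contra r
    have := q.2.2
    rw [if_neg r] at this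
    split_ifs at this <;> omega
  have e2 : fs (n + n) (selV n (gl n L A) (((gl n L A).map fun v => if v ∈ F then 1 else
      if v ∈ D then 2 else 0) ++ g') 2) = D := by
    ext v
    rw [mem_selV, ml]
    refine ⟨fun q => ?_, fun q => ⟨(mem_fs.1 (d1 q)).1, mem_union_right _ (d1 q), by
      rw [if_neg (disjoint_right.1 fd q), if_pos q]⟩⟩
    by_contra r
    have := q.2.2
    rw [if_neg r] at this
    split_ifs at this <;> omega
  have ok := hc.2 _ hg
  generalize ((gl n L A).map fun v => if v ∈ F then 1 else if v ∈ D then 2 else 0) ++ g' = g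
    at hg e1 e2 ok
  refine ⟨_, List.mem_map.2 ⟨g, hg, rfl⟩, _, _, rfl, ?_⟩
  have hb := rel_best (n := n) (j := j) (b := b) (T := T) (W := W) (w := w)
    (F := selV n (gl n L A) g 1) (Z := L) (D := selV n (gl n L A) g 2)
  rw [e1, e2] at hb
  obtain ⟨y, y1, y2, y3⟩ := hV _ hb
  change (ctx n j T W b w).Good (fs (n + n) (selV n (gl n L A) g 1)) _
  rw [e1]
  refine ⟨y, y1, y2, hasP_iff.1 ?_⟩
  change _ = true at ok
  have c4 := (bal_lo_hi (fs_subset _)).symm.trans ((y2.1.bal (ctx_ok.sideH _)).trans ctx_ok.bal)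
  rw [lo_fs, hi_fs] at c4
  simp only [okV, Bool.or_eq_true, Bool.not_eq_true', Bool.and_eq_true, cntP,
    ← Bool.not_eq_true, beq_iff_eq, List.all_eq_true, List.mem_range, Nat.ble_eq,
    ← imp_iff_not_or] at ok
  refine ok ⟨by simp only [bigV]; omega, fun v hv q => ?_⟩
  rw [deg_eq (j := j) (W := W) (b := b) (w := w)]
  exact y3 v (mem_fs.2 ⟨hv, q⟩)

theorem runS (hp : 2 ^ parS b ≤ p) (hj : j < 14 * b ^ 2) {U₁ : Finset ℕ}
    (h : (ctx n j T W b w).Good ∅ U₁) (hc : chkS p b n j T W = true) (t : ℕ) (ht : t ≤ j - 1) :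
    ∃ g : List ℕ, (∀ x ∈ g, x < 2 ^ parD b) ∧ g.length = 2 * t ∧ ∃ F,
      (∀ g', run n j T W b t (g ++ g') = (F, g')) ∧ #(fs (n + n) F) = t ∧
      ∃ U', (ctx n j T W b w).Good (fs (n + n) F) U' := by
  induction t with
  | zero => exact ⟨[], by simp, rfl, emp n, fun _ => rfl, by simp [fs_emp], U₁, fs_emp ▸ h⟩
  | succ t ih =>
    obtain ⟨g, g1, g2, F, f1, f2, U', f3⟩ := ih (by omega)
    obtain ⟨i, i1, i2, -, u, u1, u2, u3, u4⟩ := small ctx_ok f3 (show _ ≤ j by omega)
      (fun i => fs (n + n) (pool n j T W F i))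
      (fun i => fs (n + n) (rel n j T W F (pool n j T W F i) (emp n))) fs_emp
      (fun i => by
        ext v
        simp only [pool, Function.iterate_succ_apply', mem_union]
        rw [poolS, mem_fs_mkV, mem_fs, mem_fs, Bool.or_eq_true, and_or_left])
      fun i => by
        have := rel_best (n := n) (j := j) (b := b) (T := T) (W := W) (w := w) (F := F)
          (Z := pool n j T W F i) (D := emp n)
        rwa [fs_emp] at this
    change i ≤ 2 * j * b + 1 at i1
    change _ ≤ 2 * j * i at i2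
    have b0 : 0 < b := Nat.pos_of_ne_zero fun q => by simp [q] at hj
    have r1 : i ≤ 28 * b ^ 3 + 1 := by
      have := Nat.mul_le_mul_right b hj.le
      rw [show 14 * b ^ 2 * b = 14 * b ^ 3 by ring] at this
      rw [mul_assoc] at i1
      omega
    have r2 : 2 * j * i ≤ parM b := Nat.mul_le_mul (by omega) r1
    have r3 : i < 2 ^ parD b := by
      have a1 := par_big (b := b)
      have a2 : 2 * (28 * b ^ 3 + 1) ≤ parM b :=
        Nat.mul_le_mul_right _ (by have := Nat.pow_pos (n := 2) b0; omega)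
      omega
    obtain ⟨g', hg⟩ := strs_surj hp (g := g ++ [i]) (by
      simpa [or_imp, forall_and, r3] using g1) (by simp; omega)
    simp only [chkS, List.all_eq_true, List.mem_range] at hc
    have ok := hc _ hg t (by omega)
    rw [List.append_assoc, f1] at ok
    simp only [okS, List.cons_append, List.getD_cons_zero, Bool.or_eq_true, Bool.not_eq_true',
      ← Bool.not_eq_true, Nat.ble_eq, cnt_eq, parB_eq hp] at ok
    have u0 : u < n + n := mem_range.1 u1
    obtain ⟨k, k1, k2⟩ := List.getElem_of_mem ((mem_candL (b := b)).2 ⟨u0, u2⟩)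
    refine ⟨g ++ [i, k], ?_, by simp; omega, ins n F u, fun g' => ?_, ?_, fs_ins u0 ▸ u4⟩
    · have : k < 2 ^ parD b := by omega
      simpa [or_imp, forall_and, r3, this] using g1
    · have := f1 ([i, k] ++ g')
      rw [run] at this
      rw [run, Function.iterate_succ_apply', List.append_assoc, this]
      simp [stepS, k1, k2]
    · rw [fs_ins u0, card_insert_of_notMem u3, f2]

theorem winS (hp : 2 ^ parS b ≤ p) (hj : j < 14 * b ^ 2) {U₁ : Finset ℕ}
    (h : (ctx n j T W b w).Good ∅ U₁) (hc : chkS p b n j T W = true) :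
    ∃ t ∈ candS p b n j T W, Win n j T W b w t := by
  obtain ⟨g, g1, g2, F, f1, f2, U', f3⟩ := runS hp hj h hc _ le_rfl
  obtain ⟨g', hg⟩ := strs_surj hp g1 (by omega)
  have key : ∀ v < n + n + 1, ∀ U', (ctx n j T W b w).Good (fs (n + n) (ins n F v)) U' →
      #(fs (n + n) (ins n F v)) = j → ∃ t ∈ candS p b n j T W, Win n j T W b w t :=
    fun v hv U' q c => by
      refine ⟨_, List.mem_flatMap.2 ⟨_, hg, List.mem_map.2 ⟨v, List.mem_range.2 hv, rfl⟩⟩,
        _, _, rfl, ?_⟩
      obtain ⟨x, -, a, -⟩ := id q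
      have c1 : #U' + _ = 2 * j := a.2.2.1
      rwa [f1, fs_emp, ← card_eq_zero.1 (show #U' = 0 by omega)]
  rcases j.eq_zero_or_pos with rfl | j0
  · exact key (n + n) (by omega) U' (by rwa [fs_ins']) (by rw [fs_ins', f2])
  obtain ⟨x, -, a, -⟩ := id f3
  have c1 : #U' + _ = 2 * j := a.2.2.1
  obtain ⟨u, hu⟩ := card_pos.1 (show 0 < #U' by omega)
  obtain ⟨u1, u2, U'', u3⟩ := f3.step ctx_ok hu
  have u0 : u < n + n := mem_range.1 u1
  exact key u (by omega) U'' (fs_ins u0 ▸ u3) (by rw [fs_ins u0, card_insert_of_notMem u2]; omega)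

theorem cands_opt {k : ℕ} {m : Mt} (hp : 2 ^ parS b ≤ p) (hk : j + k = n)
    (hW : ∀ a < n, ∀ c < n, cs W a (c, false) = cs W a (0, false))
    (hc : chk p b n j T W = true)
    (h : Opt (range n) (range n) (fun a x => (cell T a x.1).1 = true) k (cs W) m) :
    ∃ t ∈ cands p b n j T W,
      Opt (range n) (range n) (fun a x => (cell T a x.1).1 = true) k (cs W) (gt t) := by
  obtain ⟨U₁, g⟩ := good_of_pm (b := b) hk hW h.1 h.2.1
  obtain ⟨t, t1, F, V, rfl, y, y1, y2, y3⟩ : ∃ t ∈ cands p b n j T W,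
      Win n j T W b (Sx.val (cs W) (range n) m - base n W) t := by
    unfold chk at hc
    unfold cands
    cases e : Nat.ble (14 * b ^ 2) j <;> rw [e] at hc
    · exact winS hp (by rwa [← Bool.not_eq_true, Nat.ble_eq, not_le] at e) g hc
    · exact winB hp (Nat.ble_eq.mp e) g hc
  obtain ⟨q1, q2, q3⟩ := fin_spec hk hW y2 y3
  refine ⟨_, t1, q1, q2, fun m' h1 h2 => ?_⟩
  have := h.2.2 m' h1 h2
  change y ≤ (Sx.val (cs W) (range n) m : ℤ) - base n W at y1
  omega

theorem chk_of_dense (hp : 2 ^ parS b ≤ p) (dn : (ctx n j T W b 0).Dense) :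
    chk p b n j T W = true := by
  classical
  unfold chk
  cases Nat.ble (14 * b ^ 2) j
  · simp only [cond_false, chkS, List.all_eq_true, okS, Bool.or_eq_true, Bool.not_eq_true',
      ← Bool.not_eq_true, Nat.ble_eq, cnt_eq, parB_eq hp, ← imp_iff_not_or]
    intro g _ t _
    generalize pool _ _ _ _ _ _ = Z
    intro hZ
    have c1 := card_bad dn (fs_subset (N := n + n) Z)
    have c2 := par_big (b := b)
    have c3 := Nat.mul_le_mul_left b (Nat.pow_le_pow_left hZ b)
    rw [candL, ← List.toFinset_card_of_nodup (List.nodup_range.filter _)]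
    refine (card_le_card (t := fs (n + n) Z ∪ (range (n + n)).filter fun u =>
      b ≤ #((ctx n j T W b 0).non (fs (n + n) Z) u)) fun v hv => ?_).trans
      ((card_union_le _ _).trans ?_)
    · have := mem_candL (j := j) (W := W) (w := 0) |>.1 (List.mem_toFinset.1 hv)
      simp only [mem_union, mem_filter, mem_range]
      tauto
    · change #((range (n + n)).filter fun u => b ≤ _) ≤ b * _ ^ b at c1
      omega
  · simp only [cond_true, chkB, Bool.and_eq_true, List.all_eq_true, okV, Bool.or_eq_true,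
      Bool.not_eq_true', ← Bool.not_eq_true, Nat.ble_eq, cnt_eq, ← imp_iff_not_or, cntP, beq_iff_eq,
      List.mem_range, hasP_iff]
    refine ⟨fun q => ?_, fun g _ => ?_⟩
    · rw [low_eq (j := j) (W := W) (w := 0)]
      rw [← card_lamA, ← card_lamB] at q
      refine card_low dn (fs_subset _) fun s => ?_
      cases s
      · refine q.2.trans (card_le_card_of_injOn (n + ·) (fun c hc => ?_)
          (add_right_injective n).injOn)
        refine mem_coe.2 (mem_filter.2 ⟨(mem_hi.1 hc).2, ?_⟩)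
        change Nat.blt (n + c) n = false
        rw [← Bool.not_eq_true, Nat.blt_eq]
        omega
      · exact q.1.trans (card_le_card fun c hc =>
          mem_filter.2 ⟨(mem_lo.1 hc).2, Nat.blt_eq.mpr (mem_lo.1 hc).1⟩)
    · generalize (bigV _ _ _ _ _ _ _).2 = V
      intro q
      refine hall ctx_ok dn (fs_subset V) ((bal_lo_hi (fs_subset V)).trans ?_) fun v hv => ?_
      · rw [lo_fs, hi_fs, q.1, sub_self]
      · rw [← deg_eq]
        exact q.2 v (mem_fs.1 hv).1 (mem_fs.1 hv).2

end Pool.Agent.Lib.MP_be0860_lc.Bi
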