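import Pool.Agent.Lib.MP_be0860_lc.Bi.Defs
import Pool.Agent.Lib.MP_be0860_lc.Bi.Main
import Pool.Agent.Lib.MP_be0860_lc.Sx.Final

/-!
The algorithm for graphs of small bipartite independence number: the machine.
-/

set_option autoImplicit false

namespace Pool.Agent.Lib.MP_be0860_lc.Bi

open Pool.Agent.Shared.PolyTime Finset Sx Enc Turing

section pf
variable {α : Type} [Enc α] {n j b p N u v J B : α → ℕ} {T : α → Tc} {W : α → Cs}
  {F Z D V A L : α → Vs} {t : α → Tb} {g l : α → List ℕ}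

@[fun_prop] theorem pf_ad (hn : PF n) (hT : PF T) (hu : PF u) (hv : PF v) :
    PF fun a => ad (n a) (T a) (u a) (v a) := by
  unfold ad; fun_prop

@[fun_prop] theorem pf_cnt (hN : PF N) (hA : PF A) : PF fun a => cnt (N a) (A a) := by
  unfold cnt; fun_prop

@[fun_prop] theorem pf_relE (hn : PF n) (hT : PF T) (hF : PF F) (hZ : PF Z) (hD : PF D)
    (hu : PF u) (hv : PF v) : PF fun a => relE (n a) (T a) (F a) (Z a) (D a) (u a) (v a) := by
  unfold relE; fun_prop

@[fun_prop] theorem pb_relC (hn : PF n) (hW : PF W) (hF : PF F) (hu : PF u) (hv : PF v) :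
    PB fun a => relC (n a) (W a) (F a) (u a) (v a) := by
  unfold relC
  exact PB.cond' (by fun_prop) (PB.cond' (by fun_prop) (by fun_prop) (by fun_prop)) (PB.const 0)

@[fun_prop] theorem pf_unc (hn : PF n) (hN : PF N) (ht : PF t) :
    PF fun a => unc (n a) (N a) (t a) := by
  unfold unc; fun_prop

theorem pf_full {f : α → ℕ → ℕ × Bool → Bool} (hN : PF N)
    (hf : PF fun p : α × ℕ × ℕ × Bool => f p.1 p.2.1 p.2.2) : PF fun a => full (N a) (f a) := by
  unfold full
  exact PF.pair (by fun_prop) (PF.pair (by fun_prop) (PF.pair (pf_mkE hN hf) (PF.const _)))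

theorem pf_relN (hn : PF n) (hN : PF N) (hT : PF T) (hW : PF W) (hF : PF F) (hZ : PF Z)
    (hD : PF D) : PF fun a => relN (n a) (N a) (T a) (W a) (F a) (Z a) (D a) := by
  unfold relN
  exact pf_unc hn hN (pf_mc hN (pf_full hN (by fun_prop)) (pf_mkC hN (by fun_prop)))

@[fun_prop] theorem pf_rel (hn : PF n) (hj : PF j) (hT : PF T) (hW : PF W) (hF : PF F) (hZ : PF Z)
    (hD : PF D) : PF fun a => rel (n a) (j a) (T a) (W a) (F a) (Z a) (D a) := by
  unfold rel
  exact pf_relN hn (by fun_prop) hT hW hF hZ hD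

@[fun_prop] theorem pf_finT (hn : PF n) (hT : PF T) (hW : PF W) (hF : PF F) (hV : PF V) :
    PF fun a => finT (n a) (T a) (W a) (F a) (V a) := by
  unfold finT finE
  exact pf_mc hn (pf_full hn (by fun_prop)) hW

@[fun_prop] theorem pf_subJ (hn : PF n) (hT : PF T) (hV : PF V) :
    PF fun a => subJ (n a) (T a) (V a) := by
  unfold subJ
  exact PF.pair (by fun_prop) (PF.pair (by fun_prop) (PF.pair (pf_mkE hn (by fun_prop))
    (PF.const _)))

@[fun_prop] theorem pf_hasP (hn : PF n) (hT : PF T) (hV : PF V) :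
    PF fun a => hasP (n a) (T a) (V a) := by
  unfold hasP; fun_prop

@[fun_prop] theorem pf_emp (hn : PF n) : PF fun a => emp (n a) := by
  unfold emp; fun_prop

@[fun_prop] theorem pf_lamA (hn : PF n) (hJ : PF J) (hA : PF A) :
    PF fun a => lamA (n a) (J a) (A a) := by
  unfold lamA; fun_prop

@[fun_prop] theorem pf_lamB (hn : PF n) (hJ : PF J) (hA : PF A) :
    PF fun a => lamB (n a) (J a) (A a) := by
  unfold lamB; fun_prop

@[fun_prop] theorem pf_lamV (hn : PF n) (hJ : PF J) (hA : PF A) :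
    PF fun a => lamV (n a) (J a) (A a) := by
  unfold lamV; fun_prop

@[fun_prop] theorem pf_deg (hn : PF n) (hT : PF T) (hA : PF A) (hv : PF v) :
    PF fun a => deg (n a) (T a) (A a) (v a) := by
  unfold deg; fun_prop

@[fun_prop] theorem pf_lowV (hn : PF n) (hT : PF T) (hb : PF b) (hA : PF A) :
    PF fun a => lowV (n a) (T a) (b a) (A a) := by
  unfold lowV; fun_prop

@[fun_prop] theorem pf_gl (hn : PF n) (hL : PF L) (hA : PF A) :
    PF fun a => gl (n a) (L a) (A a) := by
  unfold gl; fun_prop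

@[fun_prop] theorem pf_selV (hn : PF n) (hl : PF l) (hg : PF g) (hu : PF u) :
    PF fun a => selV (n a) (l a) (g a) (u a) := by
  unfold selV; fun_prop

@[fun_prop] theorem pf_rel0 (hn : PF n) (hj : PF j) (hT : PF T) (hW : PF W) :
    PF fun a => rel0 (n a) (j a) (T a) (W a) := by
  unfold rel0; fun_prop

@[fun_prop] theorem pf_bigV (hn : PF n) (hj : PF j) (hT : PF T) (hW : PF W) (hL : PF L)
    (hA : PF A) (hg : PF g) : PF fun a => bigV (n a) (j a) (T a) (W a) (L a) (A a) (g a) := by
  unfold bigV; fun_prop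

@[fun_prop] theorem pf_okV (hn : PF n) (hT : PF T) (hb : PF b) (hV : PF V) :
    PF fun a => okV (n a) (T a) (b a) (V a) := by
  unfold okV; fun_prop

@[fun_prop] theorem pf_poolS (hn : PF n) (hj : PF j) (hT : PF T) (hW : PF W) (hF : PF F)
    (hZ : PF Z) : PF fun a => poolS (n a) (j a) (T a) (W a) (F a) (Z a) := by
  unfold poolS; fun_prop

@[fun_prop] theorem pf_pool (hn : PF n) (hj : PF j) (hT : PF T) (hW : PF W) (hF : PF F)
    (hu : PF u) : PF fun a => pool (n a) (j a) (T a) (W a) (F a) (u a) := by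
  refine iter_le (st := fun a Z => poolS (n a) (j a) (T a) (W a) (F a) Z)
    (fun a => (n a + n a) * 3) hu (by fun_prop) (by fun_prop) (by fun_prop) fun a i _ => ?_
  rcases i with _ | i
  · exact len_mkV _ _
  · rw [Function.iterate_succ_apply']
    exact len_mkV _ _

@[fun_prop] theorem pf_candL (hn : PF n) (hT : PF T) (hb : PF b) (hZ : PF Z) :
    PF fun a => candL (n a) (T a) (b a) (Z a) := by
  unfold candL; fun_prop

@[fun_prop] theorem pf_ins (hn : PF n) (hF : PF F) (hu : PF u) :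
    PF fun a => ins (n a) (F a) (u a) := by
  unfold ins; fun_prop

@[fun_prop] theorem pf_stepS {s : α → Vs × List ℕ} (hn : PF n) (hj : PF j) (hT : PF T) (hW : PF W)
    (hb : PF b) (hs : PF s) : PF fun a => stepS (n a) (j a) (T a) (W a) (b a) (s a) := by
  unfold stepS; fun_prop

@[fun_prop] theorem pf_run (hn : PF n) (hj : PF j) (hT : PF T) (hW : PF W) (hb : PF b)
    (hu : PF u) (hg : PF g) : PF fun a => run (n a) (j a) (T a) (W a) (b a) (u a) (g a) := by
  refine iter_le (st := fun a s => stepS (n a) (j a) (T a) (W a) (b a) s)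
    (fun a => 2 * ((n a + n a) * 3) + (enc (g a)).length + 1) hu (by fun_prop) (by fun_prop)
    (PF.add (PF.add (by fun_prop) hg.encLen) (PF.const 1)) fun a i h => ?_
  clear h
  have key : ∀ i, (enc ((stepS (n a) (j a) (T a) (W a) (b a))^[i] (emp (n a), g a)).1).length ≤
      (n a + n a) * 3 ∧ ((stepS (n a) (j a) (T a) (W a) (b a))^[i] (emp (n a), g a)).2.Sublist
      (g a) := fun i => by
    induction i with
    | zero => exact ⟨len_mkV _ _, List.Sublist.refl _⟩
    | succ i ih =>
      rw [Function.iterate_succ_apply']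
      exact ⟨len_mkV _ _, (List.drop_sublist _ _).trans ih.2⟩
  have h1 := (key i).1
  have h2 := len_le_of_sublist (key i).2
  change (enc ((stepS (n a) (j a) (T a) (W a) (b a))^[i] (emp (n a), g a))).length ≤ _
  generalize (stepS (n a) (j a) (T a) (W a) (b a))^[i] (emp (n a), g a) = s at h1 h2 ⊢
  obtain ⟨s1, s2⟩ := s
  rw [len_prod]
  dsimp only at h1 h2
  omega

@[fun_prop] theorem pf_parM (hb : PF b) : PF fun a => parM (b a) := by
  unfold parM; fun_prop

@[fun_prop] theorem pf_parD (hb : PF b) : PF fun a => parD (b a) := by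
  unfold parD
  exact PF.mul (by fun_prop) (((PF.const 5).mul (pf_size hb)).add (PF.const 11))

@[fun_prop] theorem pf_parS (hb : PF b) : PF fun a => parS (b a) := by
  unfold parS; fun_prop

@[fun_prop] theorem pf_parB (hp : PF p) (hb : PF b) : PF fun a => parB (p a) (b a) := by
  refine iter_le (st := fun a y => min (y + y) (p a)) (fun a => p a + 1) (pf_parD hb)
    (by fun_prop) (by fun_prop) (by fun_prop) fun a i _ => ?_
  rw [len_nat]
  rcases i with _ | i
  · simp
  · rw [Function.iterate_succ_apply']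
    exact (min_le_right _ _).trans (Nat.le_succ _)

@[fun_prop] theorem pf_okS (hn : PF n) (hT : PF T) (hb : PF b) (hB : PF B) (hZ : PF Z) :
    PF fun a => okS (n a) (T a) (b a) (B a) (Z a) := by
  unfold okS; fun_prop

@[fun_prop] theorem pf_strs (hp : PF p) (hb : PF b) : PF fun a => strs (p a) (b a) := by
  unfold strs
  exact PF.map (f := fun a i => dig (parB (p a) (b a)) (30 * b a ^ 2) i) (by fun_prop)
    (by fun_prop)

@[fun_prop] theorem pf_candB (hp : PF p) (hb : PF b) (hn : PF n) (hj : PF j) (hT : PF T)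
    (hW : PF W) (hA : PF A) : PF fun a => candB (p a) (b a) (n a) (j a) (T a) (W a) (A a) := by
  unfold candB; fun_prop

@[fun_prop] theorem pf_candS (hp : PF p) (hb : PF b) (hn : PF n) (hj : PF j) (hT : PF T)
    (hW : PF W) : PF fun a => candS (p a) (b a) (n a) (j a) (T a) (W a) := by
  unfold candS; fun_prop

@[fun_prop] theorem pf_cands (hp : PF p) (hb : PF b) (hn : PF n) (hj : PF j) (hT : PF T)
    (hW : PF W) : PF fun a => Bi.cands (p a) (b a) (n a) (j a) (T a) (W a) := by
  unfold Bi.cands; fun_prop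

@[fun_prop] theorem pf_chkB (hp : PF p) (hb : PF b) (hn : PF n) (hj : PF j) (hT : PF T)
    (hW : PF W) (hA : PF A) : PF fun a => chkB (p a) (b a) (n a) (j a) (T a) (W a) (A a) := by
  unfold chkB; fun_prop

@[fun_prop] theorem pf_chkS (hp : PF p) (hb : PF b) (hn : PF n) (hj : PF j) (hT : PF T)
    (hW : PF W) : PF fun a => chkS (p a) (b a) (n a) (j a) (T a) (W a) := by
  unfold chkS; fun_prop

@[fun_prop] theorem pf_chk (hp : PF p) (hb : PF b) (hn : PF n) (hj : PF j) (hT : PF T)
    (hW : PF W) : PF fun a => chk (p a) (b a) (n a) (j a) (T a) (W a) := by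
  unfold chk; fun_prop

end pf

/-- the parameters that pass all checks -/
def pars (y : ℕ × Dat) : List ℕ := (List.range (Nat.size y.1)).filter fun b =>
  Nat.blt (parS b) (Nat.size y.1) &&
    chk y.1 b y.2.1 (y.2.1 - y.2.2.2.1) y.2.2.2.2 (costT y.2.1 y.2.2.2.2)

/-- zero if the search stops -/
def more (y : ℕ × Dat) : ℕ := cond (y.2.1 == y.2.2.1 && (pars y).isEmpty) 1 0

/-- the answer -/
def ans (y : ℕ × Dat) : Bool × List (ℕ × ℕ) :=
  outT y.2 (best y.2.1 (costT y.2.1 y.2.2.2.2) (instT y.2)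
    (Bi.cands y.1 ((pars y).headD 0) y.2.1 (y.2.1 - y.2.2.2.1) y.2.2.2.2 (costT y.2.1 y.2.2.2.2)))

theorem pf_pars : PF pars := by
  unfold pars
  exact PF.filter (PF.range (pf_size (by fun_prop))) (PF.and'
    (PF.blt (by fun_prop) (pf_size (by fun_prop))) (by fun_prop))

theorem pf_more : PF more := by
  have := pf_pars
  unfold more
  fun_prop

theorem pf_ans : PF ans := by
  have := pf_pars
  unfold ans
  fun_prop

open Function Polynomial in
theorem tm2_search {ι α β : Type} [Enc α] [Enc β] {d : ℕ × α → ℕ} {φ : ℕ × α → β} (hd : PF d)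
    (hφ : PF φ) (g : ι → α) (μ : ι → ℕ) (h0 : ∀ i, d (2 ^ μ i, g i) = 0)
    (h1 : ∀ i, ∀ m < μ i, d (2 ^ m, g i) ≠ 0) :
    ∃ (tm : TM2ComputableAux Bool Bool) (p : Polynomial ℕ), ∀ i,
      Nonempty (TM2OutputsInTime tm.tm (List.map tm.inputAlphabet.invFun (enc (g i)))
        (some (List.map tm.outputAlphabet.invFun (enc (φ (2 ^ μ i, g i)))))
        (p.eval (2 ^ μ i + (enc (g i)).length))) := by
  have prog : ∀ {γ : Type} [Enc γ] {ψ : ℕ × α → γ}, PF ψ → ∃ (c : Cmd) (q : Polynomial ℕ),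
      ∀ (a : α) (P N : ℕ) (y : List Bool), P ≤ N → (enc a).length ≤ N → y.length ≤ 1 →
      Exec c (update (update (update (fun _ => []) 0 (enc a)) 2 (List.replicate P true)) 1 y)
        (update (update (update (fun _ => []) 0 (enc a)) 2 (List.replicate P true)) 1
          (enc (ψ (P, a)))) (q.eval N) := by
    intro γ _ ψ ⟨F, hF, sF⟩
    have hG : PT 2 (fun v => F (encPair (v 0) (v 1))) :=
      PT.app1 hF (PT.pair_pt (PT.var 0) (PT.var 1))
    obtain ⟨c, p, h⟩ := hG 3 ![2, 0] (by intro i; fin_cases i <;> simp)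
    obtain ⟨q, hq⟩ := hG.size
    refine ⟨.seq c (assign 3 1), p + 8 * q + 5, fun a P N y hP ha hy => ?_⟩
    obtain ⟨s, hs⟩ : ∃ s : ℕ → List Bool, s = update (update (update
      (fun _ : ℕ => ([] : List Bool)) 0 (enc a)) 2 (List.replicate P true)) 1 y :=
      ⟨update (update (update (fun _ => []) 0 (enc a)) 2 (List.replicate P true)) 1 y, rfl⟩
    have hlen : ∀ i : Fin 2, (s ((![2, 0] : Fin 2 → ℕ) i)).length ≤ N := by
      intro i
      fin_cases i
      · simpa [hs] using hP
      · simpa [hs] using ha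
    have e1 := h s N (fun k hk => by
      rw [hs, update_of_ne (by omega), update_of_ne (by omega), update_of_ne (by omega)]) hlen
    have e2 := hq _ N hlen
    have r0 : s ((![2, 0] : Fin 2 → ℕ) 0) = List.replicate P true := by simp [hs]
    have r1 : s ((![2, 0] : Fin 2 → ℕ) 1) = enc a := by simp [hs]
    have hF' : F (encPair (List.replicate P true) (enc a)) = enc (ψ (P, a)) := sF (P, a)
    simp only [r0, r1, hF'] at e1 e2
    have e3 := exec_assign (a := 3) (b := 1) (by omega) (update s 3 (enc (ψ (P, a)))) (by simp [hs])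
    rw [← hs]
    refine (e1.seq e3).of_eq ?_ ?_
    · funext k
      by_cases a1 : k = 1
      · subst a1; simp
      by_cases a3 : k = 3
      · subst a3; simp
      · simp [hs, update_of_ne a1, update_of_ne a3]
    · have u1 : (update s 3 (enc (ψ (P, a))) 1).length = y.length := by simp [hs]
      rw [u1, update_self]
      simp only [eval_add, eval_mul, eval_ofNat]
      omega
  obtain ⟨c1, q1, e1⟩ := prog (ψ := fun y => min (d y) 1) (by fun_prop)
  obtain ⟨c2, q2, e2⟩ := prog hφ
  have loop : ∀ i N, 2 ^ μ i ≤ N → (enc (g i)).length ≤ N → ∀ r m, m + r = μ i →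
      Exec (.loop 1 (.seq dbl c1)) (update (update (update (fun _ => []) 0 (enc (g i))) 2
        (List.replicate (2 ^ m) true)) 1 (enc (min (d (2 ^ m, g i)) 1)))
        (update (update (update (fun _ => []) 0 (enc (g i))) 2
        (List.replicate (2 ^ μ i) true)) 1 []) (r * (13 * N + 5 + q1.eval N) + 1) := by
    intro i N n1 n2 r
    induction r with
    | zero =>
      intro m hm
      obtain rfl : m = μ i := hm
      rw [h0]
      exact (Exec.loopE (by simp [enc_nat])).of_eq rfl (by simp)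
    | succ r ih =>
      intro m hm
      have a0 : min (d (2 ^ m, g i)) 1 = 1 :=
        min_eq_right (Nat.pos_of_ne_zero (h1 i m (by omega)))
      have a1 : 2 ^ (m + 1) ≤ N := (Nat.pow_le_pow_right two_pos (by omega)).trans n1
      have a2 := exec_dbl (update (update (update (fun _ => []) 0 (enc (g i))) 2
        (List.replicate (2 ^ m) true)) 1 (enc (min (d (2 ^ m, g i)) 1))) (2 ^ m)
        (by simp) (by simp) (by simp)
      have a3 := e1 (g i) (2 ^ (m + 1)) N [] a1 n2 (by simp)
      refine (Exec.loopS (by simp [a0, enc_nat]) ((a2.of_eq ?_ le_rfl).seq a3)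
        (ih (m + 1) (by omega))).of_eq rfl ?_
      · funext k
        by_cases b1 : k = 1
        · subst b1; simp [a0, enc_nat]
        by_cases b2 : k = 2
        · subst b2; simp [pow_succ]
        · simp [update_of_ne b1, update_of_ne b2]
      · rw [pow_succ] at a1
        rw [Nat.add_mul]
        omega
  obtain ⟨tm, htm⟩ := tm2_of_exec_time (fun i : ι => enc (g i))
    (fun i => enc (φ (2 ^ μ i, g i)))
    (.seq (.push 2 true) (.seq c1 (.seq (.loop 1 (.seq dbl c1)) (.seq c2
      (.seq (clear 0) (clear 2))))))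
    (fun i => (q1 + q2 + X * (13 * X + 5 + q1) + 4 * X + 4).eval
      (2 ^ μ i + (enc (g i)).length)) (by
      intro i
      obtain ⟨N, hN⟩ : ∃ N, N = 2 ^ μ i + (enc (g i)).length := ⟨_, rfl⟩
      rw [← hN]
      have n1 : 2 ^ μ i ≤ N := hN ▸ Nat.le_add_right _ _
      have n2 : (enc (g i)).length ≤ N := hN ▸ Nat.le_add_left _ _
      have a1 := Exec.push 2 true (update (fun _ => []) 0 (enc (g i)))
      have a2 := e1 (g i) (2 ^ 0) N [] ((Nat.pow_le_pow_right two_pos (Nat.zero_le _)).trans n1) n2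
        (by simp)
      have a3 := loop i N n1 n2 (μ i) 0 (by simp)
      have a4 := e2 (g i) (2 ^ μ i) N [] n1 n2 (by simp)
      have a5 := exec_clear 0 (enc (g i)) (update (update (update (fun _ => []) 0 (enc (g i))) 2
        (List.replicate (2 ^ μ i) true)) 1 (enc (φ (2 ^ μ i, g i)))) (by simp)
      have a6 := exec_clear 2 (List.replicate (2 ^ μ i) true) (update (update (update
        (update (fun _ => []) 0 (enc (g i))) 2 (List.replicate (2 ^ μ i) true)) 1
          (enc (φ (2 ^ μ i, g i)))) 0 []) (by simp)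
      refine ((a1.of_eq ?_ le_rfl).seq (a2.seq (a3.seq (a4.seq (a5.seq a6))))).of_eq ?_ ?_
      · funext k
        by_cases b1 : k = 1
        · subst b1; simp
        by_cases b2 : k = 2
        · subst b2; simp
        · simp [update_of_ne b1, update_of_ne b2]
      · funext k
        by_cases b1 : k = 1
        · subst b1; simp
        by_cases b2 : k = 2
        · subst b2; simp
        by_cases b0 : k = 0
        · subst b0; simp
        · simp [update_of_ne b0, update_of_ne b1, update_of_ne b2]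
      · have := Nat.mul_le_mul_right (13 * N + 5 + q1.eval N) (Nat.lt_two_pow_self.le.trans n1)
        simp only [eval_add, eval_mul, eval_X, eval_ofNat, List.length_replicate]
        omega)
  refine ⟨tm, q1 + q2 + X * (13 * X + 5 + q1) + 4 * X + 4 + 1, fun i => ?_⟩
  have := htm i
  rw [eval_add (q := 1), eval_one]
  exact this

theorem ans_correct (I : QInst) {p : ℕ} (h : more (p, I.dat) = 0) : I.Correct (ans (p, I.dat)) := by
  by_cases hab : I.a = I.b
  swap
  · have : (ans (p, I.dat)).1 = false := by simp [ans, outT, QInst.dat, hab]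
    unfold QInst.Correct
    rw [this]
    refine ⟨⟨fun h => absurd h (by simp), fun ⟨P, hP⟩ => ?_⟩, fun h => absurd h (by simp)⟩
    obtain ⟨s, -⟩ := qperfect_perm hP
    exact absurd (by simpa using Fintype.card_congr s) hab
  have hb : (pars (p, I.dat)).headD 0 ∈ pars (p, I.dat) := by
    have : pars (p, I.dat) ≠ [] := fun q => by
      rw [more, q] at h
      simp [QInst.dat, hab] at h
    obtain ⟨b, l, e⟩ := List.exists_cons_of_ne_nil this
    simp [e]
  refine outT_correct I _ fun m hm hk => ?_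
  have hb2 := (List.mem_filter.1 hb).2
  generalize (pars (p, I.dat)).headD 0 = b at hb2 ⊢
  rw [Bool.and_eq_true, Nat.blt_eq, Nat.lt_size] at hb2
  have e : ∀ m, PM (fs I.a (instT I.dat).1) (fs I.a (instT I.dat).2.1) (er (instT I.dat).2.2.1) m ↔
      PM (range I.a) (range I.a) (fun a x => (cell I.dat.2.2.2 a x.1).1 = true) m := fun m => by
    change PM (fs I.a (mkV I.a fun _ => true)) (fs I.a (mkV I.a fun _ => true))
      (er (mkE I.a fun a y => (cell I.dat.2.2.2 a y.1).1)) m ↔ _
    rw [fs_full]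
    exact ⟨fun h => h.mono fun a _ x _ q => ((er_mkE _ _ _).1 q).2.2, fun h => h.mono
      fun a ha x hx q => (er_mkE _ _ _).2 ⟨mem_range.1 ha, mem_range.1 hx, q⟩⟩
  have f : fs I.a (instT I.dat).1 = range I.a := fs_full _
  obtain ⟨M, hM⟩ := exists_opt (cs (costT I.a I.dat.2.2.2)) ((e m).1 hm)
  rw [← f, hk, f] at hM
  obtain ⟨t, t1, t2⟩ := cands_opt (n := I.a) (j := I.a - I.k) (T := I.dat.2.2.2)
    (W := costT I.a I.dat.2.2.2) hb2.1 (by have := I.hk; omega)
    (fun a ha c hc => by rw [costT, cs_mkC _ ha hc, cs_mkC _ ha (show 0 < I.a by omega)]; rfl)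
    hb2.2 hM
  refine best_opt (J := instT I.dat) t1 ⟨(e _).2 t2.1, f ▸ t2.2.1, fun m' a1 a2 => ?_⟩
  rw [f] at a2 ⊢
  exact t2.2.2 m' ((e _).1 a1) a2

theorem dense_ctx (I : QInst) (hab : I.a = I.b) {b j : ℕ} {W : Cs} (h : I.Dense b) :
    (ctx I.a j I.dat.2.2.2 W b 0).Dense := by
  obtain ⟨n, _, adj, w, k, hk⟩ := I
  obtain rfl : n = _ := hab
  have key : ∀ A ⊆ range (n + n), ∀ B ⊆ range (n + n), (∀ a ∈ A, a < n) → (∀ a ∈ B, ¬a < n) →
      b ≤ #A → b ≤ #B → ∃ x ∈ A, ∃ y ∈ B,
        ad n (QInst.mk n n adj w k hk).dat.2.2.2 x y = true := fun A hA B hB a1 b1 a2 b2 => by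
    have c1 : #A ≤ #(univ.filter fun x : Fin n => x.1 ∈ A) := card_le_card_of_surjOn Fin.val
      fun a ha => ⟨⟨a, a1 a ha⟩, by simpa using ha, rfl⟩
    have c2 : #B ≤ #(univ.filter fun x : Fin n => n + x.1 ∈ B) :=
      card_le_card_of_surjOn (fun x => n + x.1) fun a ha => by
        have q1 := b1 a ha
        have q2 := mem_range.1 (hB ha)
        have e : n + (a - n) = a := by omega
        exact ⟨⟨a - n, by omega⟩, by simpa [e] using ha, e⟩
    obtain ⟨X, x1, x2⟩ := exists_subset_card_eq (a2.trans c1)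
    obtain ⟨Y, y1, y2⟩ := exists_subset_card_eq (b2.trans c2)
    obtain ⟨x, hx, y, hy, g⟩ := h X Y x2 y2
    refine ⟨x, (mem_filter.1 (x1 hx)).2, _, (mem_filter.1 (y1 hy)).2, ?_⟩
    rw [ad_lo x.2, cell_dat]
    simpa [QInst.A] using g
  intro A hA B hB s a2 b2
  have b0 : 0 < b := Nat.pos_of_ne_zero fun q => by simpa using h ∅ ∅ (by simp [q]) (by simp [q])
  obtain ⟨a, ha⟩ := card_pos.1 (b0.trans_le a2)
  obtain ⟨c, hc⟩ := card_pos.1 (b0.trans_le b2)
  have s' : ∀ x ∈ A, ∀ y ∈ B, (x < n ↔ ¬y < n) := fun x hx y hy => blt_ne.1 (s x hx y hy)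
  by_cases q : a < n
  · exact key A hA B hB (fun x hx => (s' x hx c hc).2 ((s' a ha c hc).1 q))
      (fun y hy => (s' a ha y hy).1 q) a2 b2
  · have r : ∀ y ∈ B, y < n := fun y hy => not_not.1 fun z => q ((s' a ha y hy).2 z)
    obtain ⟨y, hy, x, hx, g⟩ := key B hB A hA r (fun x hx z => (s' x hx c hc).1 z (r c hc)) b2 a2
    exact ⟨x, hx, y, hy, (ad_symm _ _).trans g⟩

theorem more_dense (I : QInst) {b : ℕ} (h : I.Dense b) : more (2 ^ parS b, I.dat) = 0 := by
  by_cases hab : I.a = I.b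
  · have : b ∈ pars (2 ^ parS b, I.dat) := by
      have h1 : b ≤ parS b := by
        have a1 : b + 1 ≤ parD b := Nat.le_mul_of_pos_right _ (by omega)
        have a2 : parD b ≤ parS b := Nat.le_mul_of_pos_left _ (by omega)
        omega
      refine List.mem_filter.2 ⟨List.mem_range.2 (by rw [Nat.size_pow]; omega), ?_⟩
      rw [Bool.and_eq_true, Nat.blt_eq, Nat.size_pow]
      exact ⟨Nat.lt_succ_self _, chk_of_dense le_rfl (dense_ctx I hab h)⟩
    rw [more, List.isEmpty_eq_false_iff.2 (List.ne_nil_of_mem this)]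
    simp
  · rw [more, show ((2 ^ parS b, I.dat).2.1 == (2 ^ parS b, I.dat).2.2.1) = false from
      beq_false_of_ne hab]
    rfl

theorem time_fpt (q : Polynomial ℕ) : ∃ C : ℕ, ∀ b m L : ℕ, 0 < b → 0 < L → m ≤ parS b →
    q.eval (2 ^ m + L) ≤ (b + 1) ^ (C * b ^ 3) * (L + 1) ^ C := by
  obtain ⟨c, d, hq⟩ := poly_le q
  refine ⟨1984 * d + (c + d), fun b m L hb hL hm => (hq _).trans ?_⟩
  have s1 : 0 < Nat.size b := Nat.size_pos.2 hb
  have s2 : 2 ^ Nat.size b ≤ (b + 1) ^ 2 := by
    obtain ⟨s, hs⟩ := Nat.exists_eq_add_one.2 s1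
    have := Nat.lt_size.1 (show s < Nat.size b by omega)
    rw [hs, pow_succ]
    nlinarith
  have s3 : parS b ≤ Nat.size b * (992 * b ^ 3) := by
    have a1 : 0 < b ^ 2 := by positivity
    rw [parS, parD, show Nat.size b * (992 * b ^ 3) =
      (31 * b ^ 2) * ((2 * b) * (16 * Nat.size b)) by ring]
    exact Nat.mul_le_mul (by omega) (Nat.mul_le_mul (by omega) (by omega))
  have s4 : 2 ^ m ≤ (b + 1) ^ (1984 * b ^ 3) := by
    refine (Nat.pow_le_pow_right two_pos (hm.trans s3)).trans ?_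
    rw [pow_mul, show 1984 * b ^ 3 = 2 * (992 * b ^ 3) by ring, pow_mul (b + 1)]
    exact Nat.pow_le_pow_left s2 _
  have s5 : 2 ≤ (b + 1) ^ (1984 * b ^ 3) :=
    le_trans (by omega) (Nat.le_self_pow (by positivity) (b + 1))
  have s6 : 2 ^ m + L + 1 ≤ (b + 1) ^ (1984 * b ^ 3) * (L + 1) := by nlinarith
  have s7 : c ≤ (L + 1) ^ c :=
    c.lt_two_pow_self.le.trans (Nat.pow_le_pow_left (show 2 ≤ L + 1 by omega) c)
  refine (Nat.mul_le_mul s7 (Nat.pow_le_pow_left s6 d)).trans ?_
  rw [mul_pow, ← pow_mul, mul_left_comm, ← pow_add]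
  refine Nat.mul_le_mul (Nat.pow_le_pow_right (by omega) ?_) (Nat.pow_le_pow_right (by omega)
    (by omega))
  rw [mul_right_comm]
  exact Nat.mul_le_mul_right _ (by omega)

theorem fpt : ∃ (f : QInst → Bool × List (ℕ × ℕ)) (tm : TM2ComputableAux Bool Bool) (C : ℕ),
    ∀ I : QInst, I.Correct (f I) ∧ ∀ β : ℕ, I.Dense β → ∃ t : ℕ,
      t ≤ (β + 1) ^ (C * β ^ 3) * (I.code.length + 1) ^ C ∧
      Nonempty (TM2OutputsInTime tm.tm (List.map tm.inputAlphabet.invFun I.code)
        (some (List.map tm.outputAlphabet.invFun (qOutCode (f I)))) t) := by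
  have ex : ∀ I : QInst, ∃ m, more (2 ^ m, I.dat) = 0 := fun I =>
    ⟨_, more_dense I (b := I.a + 1) fun X _ h _ => by
      have := card_le_univ X
      rw [Fintype.card_fin] at this
      omega⟩
  obtain ⟨tm, q, h⟩ := tm2_search pf_more pf_ans QInst.dat (fun I => Nat.find (ex I))
    (fun I => Nat.find_spec (ex I)) fun I m hm => Nat.find_min (ex I) hm
  obtain ⟨C, hC⟩ := time_fpt q
  refine ⟨fun I => ans (2 ^ Nat.find (ex I), I.dat), tm, C, fun I =>
    ⟨ans_correct I (Nat.find_spec (ex I)), fun b hb =>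
      ⟨q.eval (2 ^ Nat.find (ex I) + I.code.length), ?_, ?_⟩⟩⟩
  · exact hC b _ _ (Nat.pos_of_ne_zero fun z => by simpa using hb ∅ ∅ (by simp [z]) (by simp [z]))
      (by simp [QInst.code, encPair]) (Nat.find_min' (ex I) (more_dense I hb))
  · rw [qcode_eq]
    exact h I

end Pool.Agent.Lib.MP_be0860_lc.Bi
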