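import Pool.Agent.Lib.MP_be0860_lc.Bi.Mix

/-!
The two branching lemmas for graphs of small bipartite independence number.
-/

set_option autoImplicit false

namespace Pool.Agent.Lib.MP_be0860_lc.Bi

open Finset

/-- `U` has a perfect matching. -/
def Fe (G : ℕ → ℕ → Prop) (U : Finset ℕ) : Prop := ∃ σ, Pm G U σ

/-- the data of an instance -/
structure Ctx : Type where
  Ω : Finset ℕ
  sd : ℕ → Bool
  G : ℕ → ℕ → Prop
  c : ℕ → ℕ → ℤ
  j : ℕ
  β : ℕ
  w : ℤ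

/-- the standing assumptions -/
structure Ctx.Ok (X : Ctx) : Prop where
  symm : ∀ u v, X.G u v → X.G v u
  side : ∀ u v, X.G u v → X.sd u ≠ X.sd v
  bal : bal X.sd X.Ω = 0

/-- large sets on opposite sides are joined by an edge -/
def Ctx.Dense (X : Ctx) : Prop :=
  ∀ A ⊆ X.Ω, ∀ B ⊆ X.Ω, (∀ a ∈ A, ∀ b ∈ B, X.sd a ≠ X.sd b) → X.β ≤ #A → X.β ≤ #B →
    ∃ a ∈ A, ∃ b ∈ B, X.G a b

/-- edges not inside `F` -/
def Ctx.H (X : Ctx) (F : Finset ℕ) (u v : ℕ) : Prop := X.G u v ∧ ¬(u ∈ F ∧ v ∈ F)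

/-- edges meeting `F` are free -/
def Ctx.cF (X : Ctx) (F : Finset ℕ) (u v : ℕ) : ℤ := if u ∈ F ∨ v ∈ F then 0 else X.c u v

/-- solutions of the relaxation -/
def Ctx.Adm (X : Ctx) (F T D U : Finset ℕ) (x : ℤ) : Prop :=
  Re (X.H F) (X.cF F) X.Ω U x ∧ Disjoint U F ∧ #U + 2 * #F = 2 * X.j ∧ Disjoint U T ∧ D ⊆ U

/-- optimal solutions of the relaxation -/
def Ctx.Best (X : Ctx) (F T D V : Finset ℕ) : Prop :=
  (∃ U x, X.Adm F T D U x) → ∃ x, X.Adm F T D V x ∧ ∀ U' x', X.Adm F T D U' x' → x ≤ x'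

/-- cheap solutions that can be completed -/
def Ctx.Good (X : Ctx) (F U : Finset ℕ) : Prop := ∃ x ≤ X.w, X.Adm F ∅ ∅ U x ∧ Fe X.G U

variable {G : ℕ → ℕ → Prop} {U : Finset ℕ} {sd : ℕ → Bool}

theorem Fe.add (h : Fe G U) {a b : ℕ} (ha : a ∉ U) (hb : b ∉ U) (e : a ≠ b) (g : G a b)
    (g' : G b a) : Fe G (insert a (insert b U)) := by
  obtain ⟨σ, h⟩ := h
  refine ⟨fun v => if v = a then b else if v = b then a else σ v, fun v hv => ?_⟩
  by_cases v1 : v = a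
  · simp [v1, e.symm, g]
  by_cases v2 : v = b
  · simp [v2, e.symm, g']
  have hU : v ∈ U := by simpa [v1, v2] using hv
  obtain ⟨c1, c2, c3⟩ := h v hU
  have d1 : σ v ≠ a := fun q => ha (q ▸ c1)
  have d2 : σ v ≠ b := fun q => hb (q ▸ c1)
  simp [v1, v2, d1, d2, c1, c2, c3]

theorem Shape.card {P P' : Finset ℕ} (h : Shape sd P P') : #P = #P' ∧ P.Nonempty ∧ P'.Nonempty := by
  rcases h with ⟨u, v, rfl, rfl, -⟩ | ⟨a, b, x, y, rfl, rfl, h1, h2⟩
  · simp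
  · rw [card_pair fun e => h1 (by rw [e]), card_pair fun e => h2 (by rw [e])]
    simp

theorem uni (hs : ∀ u v, G u v → G v u) (hG : ∀ u v, G u v → sd u ≠ sd v) (h : Fe G U)
    {P P' : Finset ℕ} (hP : P ⊆ U) (hP' : ∀ v ∈ P', v ∉ U) (s : Shape sd P P')
    (hu : ∀ v ∈ P', ∀ u ∈ U, sd v ≠ sd u → G v u) (h4 : 4 ≤ #U) : Fe G ((U \ P) ∪ P') := by
  obtain ⟨σ, h⟩ := h
  have ne : ∀ u v, sd u ≠ sd v → u ≠ v := fun u v q r => q (by rw [r])
  rcases s with ⟨u, v, rfl, rfl, e⟩ | ⟨a, b, x, y, rfl, rfl, h1, h2⟩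
  · have u1 : u ∈ U := hP (by simp)
    obtain ⟨c1, c2, c3⟩ := h u u1
    have v1 : v ∉ U := hP' v (by simp)
    have k : Cl U σ {u, σ u} := fun t _ ht => by
      simp only [mem_insert, mem_singleton] at ht ⊢
      rcases ht with rfl | rfl <;> simp [c2]
    have g := hu v (by simp) _ c1 (e ▸ hG _ _ c3)
    have := Fe.add ⟨σ, h.sdiff k⟩ (a := v) (b := σ u) (by simp [v1]) (by simp)
      (fun q => v1 (q ▸ c1)) g (hs _ _ g)
    convert this using 1
    have := ne _ _ (hG _ _ c3)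
    ext t
    simp only [mem_union, mem_sdiff, mem_insert, mem_singleton]
    by_cases t1 : t = σ u
    · subst t1
      tauto
    · tauto
  have a1 : a ∈ U := hP (by simp)
  have b1 : b ∈ U := hP (by simp)
  have x1 : x ∉ U := hP' x (by simp)
  have y1 : y ∉ U := hP' y (by simp)
  obtain ⟨a', a2, b', b2, h3, a3, a4, b3, b4, k⟩ : ∃ a' ∈ U, ∃ b' ∈ U, sd a' ≠ sd b' ∧ a' ≠ a ∧
      a' ≠ b ∧ b' ≠ a ∧ b' ≠ b ∧ Cl U σ {a, b, a', b'} := by
    by_cases e : σ a = b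
    · obtain ⟨z, hz⟩ : (U \ {a, b}).Nonempty := by
        rw [← card_pos]
        have := le_card_sdiff {a, b} U
        have : #({a, b} : Finset ℕ) ≤ 2 := card_le_two
        omega
      simp only [mem_sdiff, mem_insert, mem_singleton, not_or] at hz
      obtain ⟨c1, c2, c3⟩ := h z hz.1
      have e' : σ b = a := by rw [← e, (h a a1).2.1]
      refine ⟨z, hz.1, σ z, c1, hG _ _ c3, hz.2.1, hz.2.2, fun q => hz.2.2 ?_,
        fun q => hz.2.1 ?_, fun t _ ht => ?_⟩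
      · rw [← c2, q, e]
      · rw [← c2, q, e']
      · simp only [mem_insert, mem_singleton] at ht ⊢
        rcases ht with rfl | rfl | rfl | rfl <;> simp [c2, e, e']
    · obtain ⟨c1, c2, c3⟩ := h a a1
      obtain ⟨d1, d2, d3⟩ := h b b1
      have s1 := hG _ _ c3
      have s2 := hG _ _ d3
      refine ⟨σ a, c1, σ b, d1, ?_, (ne _ _ s1).symm, e, fun q => e ?_, (ne _ _ s2).symm,
        fun t _ ht => ?_⟩
      · revert h1 s1 s2
        cases sd a <;> cases sd b <;> cases sd (σ a) <;> cases sd (σ b) <;> simp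
      · rw [← q, d2]
      · simp only [mem_insert, mem_singleton] at ht ⊢
        rcases ht with rfl | rfl | rfl | rfl <;> simp [c2, d2]
  have key : ∀ p q, p ∈ U → q ∈ U → p ≠ a → p ≠ b → q ≠ a → q ≠ b → sd x ≠ sd p → sd y ≠ sd q →
      p ≠ q → Cl U σ {a, b, p, q} → Fe G ((U \ {a, b}) ∪ {x, y}) := by
    intro p q p1 q1 p2 p3 q2 q3 s1 s2 pq k
    have g1 := hu x (by simp) _ p1 s1
    have g2 := hu y (by simp) _ q1 s2
    have f1 := Fe.add ⟨σ, h.sdiff k⟩ (a := x) (b := p) (by simp [x1]) (by simp)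
      (ne _ _ s1) g1 (hs _ _ g1)
    have f2 := f1.add (a := y) (b := q)
      (by simp [y1, (ne _ _ h2).symm, show y ≠ p from fun r => y1 (r ▸ p1)])
      (by simp [pq.symm, show q ≠ x from fun r => x1 (r ▸ q1)]) (ne _ _ s2) g2 (hs _ _ g2)
    convert f2 using 1
    ext t
    simp only [mem_union, mem_sdiff, mem_insert, mem_singleton]
    by_cases t1 : t = p
    · subst t1
      tauto
    by_cases t2 : t = q
    · subst t2
      tauto
    · tauto
  by_cases s : sd x = sd a'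
  · refine key b' a' b2 a2 b3 b4 a3 a4 (s ▸ h3) (s ▸ h2.symm) (ne _ _ h3).symm ?_
    rwa [pair_comm b' a']
  · refine key a' b' a2 b2 a3 a4 b3 b4 s ?_ (ne _ _ h3) k
    revert h2 h3 s
    cases sd x <;> cases sd y <;> cases sd a' <;> cases sd b' <;> simp

theorem pm_of_bij {H : ℕ → ℕ → Prop} {A B : Finset ℕ} {g : ℕ → ℕ}
    (hb : Set.BijOn g (A : Set ℕ) (B : Set ℕ)) (hd : Disjoint A B)
    (hH : ∀ a ∈ A, H a (g a) ∧ H (g a) a) : ∃ σ, Pm H (A ∪ B) σ ∧ ∀ a ∈ A, σ a = g a := by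
  refine ⟨fun v => if v ∈ A then g v else Function.invFunOn g A v, fun v hv => ?_,
    fun a ha => if_pos ha⟩
  by_cases h : v ∈ A
  · have h1 : g v ∈ B := hb.mapsTo h
    have h2 : g v ∉ A := fun q => disjoint_left.1 hd q h1
    simp only [h, h2, if_true, if_false]
    exact ⟨mem_union_right _ h1, hb.invOn_invFunOn.1 h, (hH v h).1⟩
  · have h1 : v ∈ B := by simpa [h] using hv
    have h2 : Function.invFunOn g A v ∈ A := hb.surjOn.mapsTo_invFunOn h1
    have h3 : g (Function.invFunOn g A v) = v := hb.invOn_invFunOn.2 h1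
    simp only [h, h2, if_true, if_false]
    exact ⟨mem_union_left _ h2, h3, by simpa [h3] using (hH _ h2).2⟩

theorem bal_eq (sd : ℕ → Bool) (T : Finset ℕ) :
    bal sd T = (#(T.filter fun v => sd v = true) : ℤ) - #(T.filter fun v => ¬sd v = true) := by
  simp only [bal, sum_ite, sum_const, nsmul_eq_mul]
  ring

variable {X : Ctx} {F T D : Finset ℕ} {x : ℤ}

open Classical in
theorem hall (ok : X.Ok) (dn : X.Dense) (hU : U ⊆ X.Ω) (hb : bal X.sd U = 0)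
    (hd : ∀ v ∈ U, X.β ≤ #(U.filter (X.G v))) : Fe X.G U := by
  obtain ⟨A, hA⟩ : ∃ A, A = U.filter fun v => X.sd v = true := ⟨_, rfl⟩
  obtain ⟨B, hB⟩ : ∃ B, B = U.filter fun v => ¬X.sd v = true := ⟨_, rfl⟩
  have mA : ∀ v, v ∈ A ↔ v ∈ U ∧ X.sd v = true := by simp [hA]
  have mB : ∀ v, v ∈ B ↔ v ∈ U ∧ ¬X.sd v = true := by simp [hB]
  have hc : #A = #B := by
    rw [bal_eq, ← hA, ← hB] at hb
    omega
  have nB : ∀ a ∈ A, ∀ v ∈ U, X.G a v → v ∈ B := fun a ha v hv g => (mB v).2 ⟨hv, fun q =>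
    ok.side _ _ g (by rw [q, ((mA a).1 ha).2])⟩
  obtain ⟨f, f1, f2⟩ := (all_card_le_biUnion_card_iff_exists_injective
      fun a : A => U.filter (X.G a)).1 fun S => by
    obtain ⟨N, hN⟩ : ∃ N, N = S.biUnion fun a : A => U.filter (X.G a) := ⟨_, rfl⟩
    have mN : ∀ v, v ∈ N ↔ v ∈ U ∧ ∃ a ∈ S, X.G a.1 v := fun v => by
      simp only [hN, mem_biUnion, mem_filter]
      tauto
    rw [← hN]
    rcases S.eq_empty_or_nonempty with rfl | ⟨a, ha⟩
    · simp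
    have n1 : X.β ≤ #N := (hd a ((mA a).1 a.2).1).trans (card_le_card fun v hv =>
      (mN v).2 ⟨(mem_filter.1 hv).1, a, ha, (mem_filter.1 hv).2⟩)
    by_cases hs : #S ≤ X.β
    · omega
    have cS : #(S.map (Function.Embedding.subtype _)) = #S := card_map _
    have sA : S.map (Function.Embedding.subtype _) ⊆ A := fun v hv => by
      obtain ⟨t, -, rfl⟩ := mem_map.1 hv
      exact t.2
    have n2 : #(B \ N) < X.β := by
      by_contra hn
      obtain ⟨p, hp, q, hq, g⟩ := dn _ (fun v hv => hU ((mA v).1 (sA hv)).1) (B \ N)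
        (fun v hv => hU ((mB v).1 (mem_sdiff.1 hv).1).1) (fun p hp q hq e =>
          ((mB q).1 (mem_sdiff.1 hq).1).2 (e ▸ ((mA p).1 (sA hp)).2)) (by omega) (by omega)
      obtain ⟨t, ht, rfl⟩ := mem_map.1 hp
      exact (mem_sdiff.1 hq).2 ((mN q).2 ⟨((mB q).1 (mem_sdiff.1 hq).1).1, t, ht, g⟩)
    have n3 := le_card_sdiff N B
    rcases (B \ N).eq_empty_or_nonempty with e | ⟨y, hy⟩
    · have := card_le_card sA
      rw [e, card_empty] at n3
      omega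
    obtain ⟨y1, y2⟩ := mem_sdiff.1 hy
    have n4 := (hd y ((mB y).1 y1).1).trans (card_le_card (t := A \ S.map
      (Function.Embedding.subtype _)) fun v hv => by
        obtain ⟨v1, v2⟩ := mem_filter.1 hv
        refine mem_sdiff.2 ⟨(mA v).2 ⟨v1, ?_⟩, fun q => y2 ?_⟩
        · have h1 := ok.side _ _ v2
          have h2 := ((mB y).1 y1).2
          revert h1 h2
          cases X.sd y <;> cases X.sd v <;> simp
        · obtain ⟨t, ht, rfl⟩ := mem_map.1 q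
          exact (mN y).2 ⟨((mB y).1 y1).1, t, ht, ok.symm _ _ v2⟩)
    rw [card_sdiff_of_subset sA] at n4
    omega
  have g1 : ∀ a (ha : a ∈ A), (fun v => if h : v ∈ A then f ⟨v, h⟩ else 0) a = f ⟨a, ha⟩ :=
    fun a ha => dif_pos ha
  generalize (fun v => if h : v ∈ A then f ⟨v, h⟩ else 0) = g at g1
  have g2 : ∀ a ∈ A, g a ∈ U ∧ X.G a (g a) := fun a ha => g1 a ha ▸ mem_filter.1 (f2 ⟨a, ha⟩)
  have mp : Set.MapsTo g A B := fun a ha => nB a ha _ (g2 a ha).1 (g2 a ha).2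
  have inj : Set.InjOn g A := fun a ha b hb e => by
    rw [g1 a ha, g1 b hb] at e
    exact congrArg Subtype.val (f1 e)
  obtain ⟨σ, h, -⟩ := pm_of_bij (H := X.G) ⟨mp, inj, surjOn_of_injOn_of_card_le g mp inj hc.ge⟩
    (disjoint_left.2 fun v h1 h2 => ((mB v).1 h2).2 ((mA v).1 h1).2)
    fun a ha => ⟨(g2 a ha).2, ok.symm _ _ (g2 a ha).2⟩
  rw [hA, hB, filter_union_filter_not_eq] at h
  exact ⟨σ, h⟩

theorem Ctx.Ok.sideH (ok : X.Ok) (F : Finset ℕ) (u v : ℕ) (h : X.H F u v) : X.sd u ≠ X.sd v :=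
  ok.side u v h.1

theorem glue {W F' : Finset ℕ} {σ : ℕ → ℕ} (h : X.Adm F ∅ ∅ U x) (hW : W ⊆ U)
    (hσ : Pm X.G W σ) (hF : F' ⊆ W) (e : ∀ v ∈ W, v ∈ F' ↔ σ v ∉ F') :
    X.Adm (F ∪ F') ∅ ∅ (U \ W) x := by
  obtain ⟨⟨hU, μ, h1, h2⟩, h3, h4, -, -⟩ := h
  have s : X.Ω \ (U \ W) = ((X.Ω \ U) \ W) ∪ (W ∩ W) := by
    ext v
    have := @hU v
    have := @hW v
    simp only [mem_sdiff, mem_union, mem_inter]
    tauto
  have s' : (X.Ω \ U) \ W = X.Ω \ U :=
    sdiff_eq_self_of_disjoint (disjoint_left.2 fun v q r => (mem_sdiff.1 q).2 (hW r))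
  have nF : ∀ v ∈ X.Ω \ U, v ∉ F' := fun v q r => (mem_sdiff.1 q).2 (hW (hF r))
  have nW : ∀ v ∈ W, v ∉ F := fun v q => disjoint_left.1 h3 (hW q)
  have p1 : Pm (X.H (F ∪ F')) (X.Ω \ U) μ := h1.mono fun v hv q =>
    ⟨q.1, by simpa [nF v hv, nF _ (h1 v hv).1] using q.2⟩
  have p2 : Pm (X.H (F ∪ F')) W σ := hσ.mono fun v hv q =>
    ⟨q, by simpa [nW v hv, nW _ (hσ v hv).1] using (e v hv).1⟩
  have cW : #W = 2 * #F' := by
    have : #F' = #(W \ F') := card_nbij' σ σ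
      (fun v hv => mem_coe.2 (mem_sdiff.2 ⟨(hσ v (hF hv)).1, (e v (hF hv)).1 hv⟩))
      (fun v hv => by
        obtain ⟨v1, v2⟩ := mem_sdiff.1 (mem_coe.1 hv)
        by_contra q
        exact v2 ((e v v1).2 q))
      (fun v hv => (hσ v (hF hv)).2.1) fun v hv => (hσ v (mem_sdiff.1 (mem_coe.1 hv)).1).2.1
    have := card_sdiff_add_card_eq_card hF
    omega
  refine ⟨⟨sdiff_subset.trans hU, _, s ▸ swap_pm p1 p2 (fun v q r => absurd (hW r)
    (mem_sdiff.1 q).2) fun v q _ => (hσ v q).1, ?_⟩, ?_, ?_, by simp, by simp⟩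
  · rw [s, swap_cost, s', inter_self, ← h2]
    have z : cost (X.cF (F ∪ F')) W σ = 0 := sum_eq_zero fun v hv => if_pos (by
      have := e v hv
      simp only [mem_union]
      tauto)
    rw [z, add_zero]
    exact sum_congr rfl fun v hv => by simp [Ctx.cF, nF v hv, nF _ (h1 v hv).1]
  · exact disjoint_union_right.2 ⟨h3.mono_left sdiff_subset, sdiff_disjoint.mono_right hF⟩
  · rw [card_union_of_disjoint (disjoint_left.2 fun v q r => nW v (hF r) q)]
    have := card_sdiff_add_card_eq_card hW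
    omega

theorem Ctx.Good.step (ok : X.Ok) (h : X.Good F U) {u : ℕ} (hu : u ∈ U) :
    u ∈ X.Ω ∧ u ∉ F ∧ ∃ U', X.Good (insert u F) U' := by
  obtain ⟨x, hx, h, σ, hσ⟩ := h
  obtain ⟨c1, c2, c3⟩ := hσ u hu
  have ne : σ u ≠ u := fun q => ok.side _ _ c3 (by rw [q])
  have k : Cl U σ {u, σ u} := fun t _ ht => by
    simp only [mem_insert, mem_singleton] at ht ⊢
    rcases ht with rfl | rfl <;> simp [c2]
  have s : ({u, σ u} : Finset ℕ) ⊆ U := by simp [insert_subset_iff, hu, c1]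
  refine ⟨h.1.1 hu, disjoint_left.1 h.2.1 hu, U \ {u, σ u}, x, hx, ?_, σ, hσ.sdiff k⟩
  have := glue (F' := {u}) h s (fun v hv => ⟨k v (s hv) hv, (hσ v (s hv)).2⟩) (by simp)
    fun v hv => by
      simp only [mem_insert, mem_singleton] at hv ⊢
      rcases hv with rfl | rfl <;> simp [c2, ne]
  rwa [union_comm, ← insert_eq] at this

theorem Ctx.Adm.exch (ok : X.Ok) {U' : Finset ℕ} {x' : ℤ} (h : X.Adm F T ∅ U x)
    (h' : X.Adm F T ∅ U' x') (Q : Finset ℕ) (hQ : 2 * #Q < #(U \ U')) :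
    ∃ P ⊆ U \ U', ∃ P' ⊆ U' \ U, Disjoint P Q ∧ Disjoint P' Q ∧ Shape X.sd P P' ∧
      ∃ y y', X.Adm F T ∅ ((U \ P) ∪ P') y ∧ X.Adm F T ∅ ((U' \ P') ∪ P) y' ∧ y + y' = x + x' := by
  obtain ⟨h1, h2, h3, h4, -⟩ := h
  obtain ⟨k1, k2, k3, k4, -⟩ := h'
  obtain ⟨P, p1, P', p2, p3, p4, s, y, y', r, r', e⟩ :=
    Bi.exch (ok.sideH F) h1 k1 (by omega) Q hQ
  have a1 : P ⊆ U := p1.trans sdiff_subset
  have a2 : P' ⊆ U' := p2.trans sdiff_subset
  have c := s.card.1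
  refine ⟨P, p1, P', p2, p3, p4, s, y, y', ⟨r, ?_, ?_, ?_, by simp⟩, ⟨r', ?_, ?_, ?_, by simp⟩, e⟩
  · exact disjoint_union_left.2 ⟨h2.mono_left sdiff_subset, k2.mono_left a2⟩
  · rw [card_union_of_disjoint (disjoint_left.2 fun v q r =>
      (mem_sdiff.1 (p2 r)).2 (mem_sdiff.1 q).1)]
    have := card_sdiff_add_card_eq_card a1
    omega
  · exact disjoint_union_left.2 ⟨h4.mono_left sdiff_subset, k4.mono_left a2⟩
  · exact disjoint_union_left.2 ⟨k2.mono_left sdiff_subset, h2.mono_left a1⟩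
  · rw [card_union_of_disjoint (disjoint_left.2 fun v q r =>
      (mem_sdiff.1 (p1 r)).2 (mem_sdiff.1 q).1)]
    have := card_sdiff_add_card_eq_card a2
    omega
  · exact disjoint_union_left.2 ⟨k4.mono_left sdiff_subset, h4.mono_left a1⟩

theorem Ctx.Adm.forget (h : X.Adm F T D U x) : X.Adm F ∅ ∅ U x :=
  ⟨h.1, h.2.1, h.2.2.1, by simp, by simp⟩

open Classical in
/-- points of `Z` on the other side that are not adjacent to `u` -/
noncomputable def Ctx.non (X : Ctx) (Z : Finset ℕ) (u : ℕ) : Finset ℕ :=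
  Z.filter fun z => X.sd z ≠ X.sd u ∧ ¬X.G z u

theorem small (ok : X.Ok) (h : X.Good F U) (hj : #F + 2 ≤ X.j) (Z V : ℕ → Finset ℕ)
    (z0 : Z 0 = ∅) (zs : ∀ i, Z (i + 1) = Z i ∪ V i) (hV : ∀ i, X.Best F (Z i) ∅ (V i)) :
    ∃ i ≤ 2 * X.j * X.β + 1, #(Z i) ≤ 2 * X.j * i ∧ Z i ⊆ X.Ω ∧
      ∃ u ∈ X.Ω, (u ∈ Z i ∨ X.β ≤ #(X.non (Z i) u)) ∧ u ∉ F ∧ ∃ U', X.Good (insert u F) U' := by
  classical
  by_contra hn
  push Not at hn
  obtain ⟨r, hr⟩ : ∃ r, r = 2 * X.j * X.β + 1 := ⟨_, rfl⟩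
  rw [← hr] at hn
  have h0 := h
  obtain ⟨x, hx, hA, hF⟩ := h0
  have dis : ∀ i ≤ r, #(Z i) ≤ 2 * X.j * i ∧ Z i ⊆ X.Ω → ∀ U', X.Good F U' →
      Disjoint U' (Z i) ∧ ∀ u ∈ U', #(X.non (Z i) u) < X.β := fun i hi q U' g => by
    refine ⟨disjoint_left.2 fun u hu hz => ?_, fun u hu => not_le.1 fun hz => ?_⟩
    · obtain ⟨a, b, U'', c⟩ := g.step ok hu
      exact hn i hi q.1 q.2 u a (Or.inl hz) b U'' c
    · obtain ⟨a, b, U'', c⟩ := g.step ok hu
      exact hn i hi q.1 q.2 u a (Or.inr hz) b U'' c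
  have adm : ∀ i, Disjoint U (Z i) → X.Adm F (Z i) ∅ U x := fun i d =>
    ⟨hA.1, hA.2.1, hA.2.2.1, d, by simp⟩
  have sz : ∀ i ≤ r, #(Z i) ≤ 2 * X.j * i ∧ Z i ⊆ X.Ω := fun i hi => by
    induction i with
    | zero => simp [z0]
    | succ i ih =>
      obtain ⟨y, a, -⟩ := hV i ⟨U, x, adm i (dis i (by omega) (ih (by omega)) U h).1⟩
      have a1 := a.2.2.1
      have a2 := card_union_le (Z i) (V i)
      have a3 := (ih (by omega)).1
      rw [zs, mul_add]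
      exact ⟨by omega, union_subset (ih (by omega)).2 a.1.1⟩
  have mono : ∀ i ≤ r, Z i ⊆ Z r := fun i hi =>
    monotone_nat_of_le_succ (f := Z) (fun i => zs i ▸ subset_union_left) hi
  obtain ⟨B, hB⟩ : ∃ B, B = U.biUnion (X.non (Z r)) := ⟨_, rfl⟩
  have cB : #B < r := by
    have a1 := card_biUnion_le_card_mul U (X.non (Z r)) X.β fun u hu =>
      ((dis r le_rfl (sz r le_rfl) U h).2 u hu).le
    have a2 := Nat.mul_le_mul_right X.β (show #U ≤ 2 * X.j by have := hA.2.2.1; omega)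
    rw [← hB] at a1
    omega
  obtain ⟨i, hi, hd⟩ : ∃ i < r, Disjoint (V i) B := by
    by_contra q
    push Not at q
    have key : ∀ i ≤ r, i ≤ #(Z i ∩ B) := fun i hi => by
      induction i with
      | zero => simp
      | succ i ih =>
        obtain ⟨y, a, -⟩ := hV i ⟨U, x, adm i (dis i (by omega) (sz i (by omega)) U h).1⟩
        obtain ⟨v, v1, v2⟩ := not_disjoint_iff.1 (q i hi)
        refine (ih (by omega)).trans_lt (card_lt_card ((ssubset_iff_of_subset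
          (inter_subset_inter_right (zs i ▸ subset_union_left))).2 ⟨v, by simp [zs, v1, v2], ?_⟩))
        exact fun t => disjoint_left.1 a.2.2.2.1 v1 (mem_inter.1 t).1
    have := (key r le_rfl).trans (card_le_card inter_subset_right)
    omega
  have d1 := (dis i hi.le (sz i hi.le) U h).1
  have d2 := (dis (i + 1) hi (sz _ hi) U h).1
  obtain ⟨y, a, mn⟩ := hV i ⟨U, x, adm i d1⟩
  have vz : V i ⊆ Z (i + 1) := zs i ▸ subset_union_right
  have c4 : 4 ≤ #U := by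
    have := hA.2.2.1
    omega
  obtain ⟨P, p1, P', p2, -, -, s, t, t', b, b', e⟩ := (adm i d1).exch ok a ∅ (by
    rw [sdiff_eq_self_of_disjoint (d2.mono_right vz), card_empty]
    omega)
  have g : X.Good F ((U \ P) ∪ P') := ⟨t, by have := mn _ _ b'; omega, b.forget,
    uni ok.symm ok.side hF (p1.trans sdiff_subset) (fun v hv => (mem_sdiff.1 (p2 hv)).2) s
      (fun v hv u hu q => by
        by_contra ng
        have v1 := (mem_sdiff.1 (p2 hv)).1
        exact disjoint_left.1 hd v1 (hB ▸ mem_biUnion.2 ⟨u, hu, mem_filter.2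
          ⟨mono _ hi (vz v1), q, ng⟩⟩)) c4⟩
  obtain ⟨v, hv⟩ := s.card.2.2
  exact disjoint_left.1 (dis (i + 1) hi (sz _ hi) _ g).1 (mem_union_right _ hv)
    (vz (mem_sdiff.1 (p2 hv)).1)

theorem card_bad (dn : X.Dense) {Z : Finset ℕ} (hZ : Z ⊆ X.Ω) :
    #(X.Ω.filter fun u => X.β ≤ #(X.non Z u)) ≤ X.β * #Z ^ X.β := by
  classical
  have ex : ∀ u, ∃ Y, X.β ≤ #(X.non Z u) → Y ⊆ X.non Z u ∧ #Y = X.β := fun u => by
    by_cases h : X.β ≤ #(X.non Z u)
    · obtain ⟨Y, h1, h2⟩ := exists_subset_card_eq h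
      exact ⟨Y, fun _ => ⟨h1, h2⟩⟩
    · exact ⟨∅, fun q => absurd q h⟩
  choose f hf using ex
  refine (card_le_mul_card_image_of_maps_to (f := f) (t := powersetCard X.β Z) (fun u hu => ?_)
    X.β fun Y hY => ?_).trans (Nat.mul_le_mul_left _ ?_)
  · obtain ⟨h1, h2⟩ := hf u (mem_filter.1 hu).2
    exact mem_powersetCard.2 ⟨h1.trans (filter_subset _ _), h2⟩
  · by_contra hn
    obtain ⟨y1, y2⟩ := mem_powersetCard.1 hY
    have m : ∀ u ∈ (X.Ω.filter fun u => X.β ≤ #(X.non Z u)).filter fun u => f u = Y, ∀ y ∈ Y,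
        X.sd y ≠ X.sd u ∧ ¬X.G y u := fun u hu y hy => by
      obtain ⟨u1, u2⟩ := mem_filter.1 hu
      exact (mem_filter.1 ((hf u (mem_filter.1 u1).2).1 (u2 ▸ hy))).2
    obtain ⟨a, ha, b, hb, g⟩ := dn Y (y1.trans hZ) _
      ((filter_subset _ _).trans (filter_subset _ _)) (fun a ha b hb => (m b hb a ha).1) y2.ge
      (not_le.1 hn).le
    exact (m b hb a ha).2 g
  · rw [card_powersetCard]
    exact Nat.choose_le_pow _ _

theorem prox (ok : X.Ok) {U₀ : Finset ℕ} (h0 : X.Best ∅ ∅ ∅ U₀) (Q : Finset ℕ) (n : ℕ) :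
    ∀ U x, X.Adm ∅ ∅ ∅ U x → #(U \ U₀) ≤ n → ∃ U' x', X.Adm ∅ ∅ ∅ U' x' ∧ x' ≤ x ∧
      (∀ q ∈ Q, q ∈ U' ↔ q ∈ U) ∧ #(U₀ \ U') ≤ 2 * #Q := by
  induction n with
  | zero =>
    intro U x h hn
    obtain ⟨y, a, -⟩ := h0 ⟨U, x, h⟩
    have c : #U = #U₀ := by
      have := h.2.2.1
      have := a.2.2.1
      omega
    exact ⟨U, x, h, le_rfl, fun _ _ => Iff.rfl, by rw [← card_sdiff_comm c]; omega⟩
  | succ n ih =>
    intro U x h hn
    obtain ⟨y, a, mn⟩ := h0 ⟨U, x, h⟩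
    have c : #U = #U₀ := by
      have := h.2.2.1
      have := a.2.2.1
      omega
    by_cases hQ : 2 * #Q < #(U \ U₀)
    swap
    · exact ⟨U, x, h, le_rfl, fun _ _ => Iff.rfl, by rw [← card_sdiff_comm c]; omega⟩
    obtain ⟨P, p1, P', p2, p3, p4, s, t, t', b, b', e⟩ := h.exch ok a Q hQ
    obtain ⟨v, hv⟩ := s.card.2.1
    obtain ⟨U', x', u1, u2, u3, u4⟩ := ih _ t b (by
      refine Nat.lt_succ_iff.1 (lt_of_lt_of_le (card_lt_card ?_) hn)
      refine (ssubset_iff_of_subset fun z hz => ?_).2 ⟨v, p1 hv, fun q => ?_⟩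
      · have := @p2 z
        simp only [mem_sdiff, mem_union] at this hz ⊢
        tauto
      · have := @p2 v
        have := p1 hv
        simp only [mem_sdiff, mem_union] at *
        tauto)
    refine ⟨U', x', u1, by have := mn _ _ b'; omega, fun q hq => (u3 q hq).trans ?_, u4⟩
    have := disjoint_right.1 p3 hq
    have := disjoint_right.1 p4 hq
    simp only [mem_sdiff, mem_union]
    tauto

open Classical in
/-- points with few neighbours in `Λ` -/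
noncomputable def Ctx.low (X : Ctx) (Λ : Finset ℕ) : Finset ℕ :=
  X.Ω.filter fun v => #(Λ.filter (X.G v)) < 13 * X.β

theorem card_low (dn : X.Dense) {Λ : Finset ℕ} (hΛ : Λ ⊆ X.Ω)
    (hs : ∀ s, 14 * X.β ^ 2 ≤ #(Λ.filter fun v => X.sd v = s)) : #(X.low Λ) ≤ 2 * X.β := by
  classical
  have key : ∀ s, #((X.low Λ).filter fun v => X.sd v = s) ≤ X.β := fun s => by
    by_contra hn
    obtain ⟨A, a1, a2⟩ := exists_subset_card_eq (not_le.1 hn).le
    have m : ∀ a ∈ A, (a ∈ X.Ω ∧ #(Λ.filter (X.G a)) < 13 * X.β) ∧ X.sd a = s := fun a ha => by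
      simpa [Ctx.low] using a1 ha
    have c1 := card_biUnion_le_card_mul A (fun a => Λ.filter (X.G a)) (13 * X.β)
      fun a ha => (m a ha).1.2.le
    have c2 := le_card_sdiff (A.biUnion fun a => Λ.filter (X.G a)) (Λ.filter fun v => X.sd v = !s)
    have c3 := hs (!s)
    have c4 : X.β ≤ X.β ^ 2 := Nat.le_self_pow (by omega) _
    rw [a2, show X.β * (13 * X.β) = 13 * X.β ^ 2 by ring] at c1
    obtain ⟨a, ha, b, hb, g⟩ := dn A (fun a ha => (m a ha).1.1)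
      ((Λ.filter fun v => X.sd v = !s) \ A.biUnion fun a => Λ.filter (X.G a))
      (sdiff_subset.trans ((filter_subset _ _).trans hΛ)) (fun a ha b hb => by
        rw [(m a ha).2, (mem_filter.1 (mem_sdiff.1 hb).1).2]
        simp) a2.ge (by omega)
    exact (mem_sdiff.1 hb).2 (mem_biUnion.2 ⟨a, ha, mem_filter.2
      ⟨(mem_filter.1 (mem_sdiff.1 hb).1).1, g⟩⟩)
  have h1 := card_filter_add_card_filter_not (s := X.low Λ) fun v => X.sd v = true
  have h2 := key true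
  have h3 := key false
  simp only [Bool.not_eq_true] at h1
  omega

open Classical in
theorem large (ok : X.Ok) {U₀ Λ : Finset ℕ} (h0 : X.Best ∅ ∅ ∅ U₀) (h : X.Good ∅ U)
    (hΛ : Λ ⊆ U₀) (hL : #(X.low Λ) ≤ 2 * X.β) :
    ∃ F ⊆ X.low Λ, ∃ D ⊆ Λ, Disjoint F D ∧ ∀ V, X.Best F (X.low Λ) D V →
      ∃ y ≤ X.w, X.Adm F ∅ ∅ V y ∧ ∀ v ∈ V, X.β ≤ #(V.filter (X.G v)) := by
  obtain ⟨x, hx, hA, σ, hσ⟩ := h
  obtain ⟨L, eL⟩ : ∃ L, L = X.low Λ := ⟨_, rfl⟩
  rw [← eL] at hL ⊢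
  obtain ⟨F, eF⟩ : ∃ F, F = (L ∩ U).filter fun v => X.sd v = true ∨ σ v ∉ L := ⟨_, rfl⟩
  have mF : ∀ v, v ∈ F ↔ (v ∈ L ∧ v ∈ U) ∧ (X.sd v = true ∨ σ v ∉ L) := by simp [eF]
  have FL : F ⊆ L := fun v hv => ((mF v).1 hv).1.1
  obtain ⟨W, eW⟩ : ∃ W, W = F ∪ F.image σ := ⟨_, rfl⟩
  have mW : ∀ v ∈ U, v ∈ W ↔ v ∈ F ∨ σ v ∈ F := fun v hv => by
    rw [eW, mem_union, mem_image]
    refine or_congr Iff.rfl ⟨?_, fun q => ⟨_, q, (hσ v hv).2.1⟩⟩
    rintro ⟨t, ht, rfl⟩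
    rwa [(hσ t ((mF t).1 ht).1.2).2.1]
  have WU : W ⊆ U := eW ▸ union_subset (fun v hv => ((mF v).1 hv).1.2) fun v hv => by
    obtain ⟨t, ht, rfl⟩ := mem_image.1 hv
    exact (hσ t ((mF t).1 ht).1.2).1
  have cF := card_le_card FL
  have cI : #(F.image σ) ≤ #F := card_image_le
  have cW : #W ≤ 2 * #F := by
    have := card_union_le F (F.image σ)
    rw [← eW] at this
    omega
  have cQ := card_union_le L (F.image σ)
  obtain ⟨U', x', u1, u2, u3, u4⟩ := prox ok h0 (L ∪ F.image σ) _ U x hA le_rfl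
  have WU' : W ⊆ U' := fun v hv =>
    (u3 v (union_subset_union_left FL (eW ▸ hv))).2 (WU hv)
  have sides : ∀ v ∈ U, X.sd v = true ↔ ¬X.sd (σ v) = true := fun v hv => by
    have := ok.side _ _ (hσ v hv).2.2
    revert this
    cases X.sd v <;> cases X.sd (σ v) <;> simp
  have g := glue (F' := F) u1 WU' (σ := σ) (fun v hv => ⟨(mW _ (hσ v (WU hv)).1).2 (by
      rw [(hσ v (WU hv)).2.1]
      exact ((mW v (WU hv)).1 hv).symm), (hσ v (WU hv)).2⟩) (eW ▸ subset_union_left)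
    fun v hv => by
      have a1 := (mW v (WU hv)).1 hv
      have a2 := mF v
      have a3 := mF (σ v)
      have a4 := sides v (WU hv)
      rw [(hσ v (WU hv)).2.1] at a3
      tauto
  rw [empty_union] at g
  have dL : Disjoint (U' \ W) L := disjoint_left.2 fun v hv hl => by
    obtain ⟨v1, v2⟩ := mem_sdiff.1 hv
    have v3 := (u3 v (mem_union_left _ hl)).1 v1
    have a1 := mW v v3
    have a2 := mF v
    have a3 := mF (σ v)
    have a4 := sides v v3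
    have a5 := (hσ v v3).1
    rw [(hσ v v3).2.1] at a3
    tauto
  refine ⟨F, FL, Λ ∩ (U' \ W), inter_subset_left,
    (dL.mono inter_subset_right FL).symm, fun V hV => ?_⟩
  obtain ⟨y, a, mn⟩ := hV ⟨_, x', g.1, g.2.1, g.2.2.1, dL, inter_subset_right⟩
  refine ⟨y, ?_, a.forget, fun v hv => ?_⟩
  · have := mn _ x' ⟨g.1, g.2.1, g.2.2.1, dL, inter_subset_right⟩
    omega
  · have v1 : 13 * X.β ≤ #(Λ.filter (X.G v)) := by
      by_contra q
      exact disjoint_left.1 a.2.2.2.1 hv (eL ▸ mem_filter.2 ⟨a.1.1 hv, not_le.1 q⟩)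
    have v2 := card_le_card (s := Λ.filter (X.G v)) (t := V.filter (X.G v) ∪ ((U₀ \ U') ∪ W))
      fun z hz => by
        have b1 := @hΛ z
        have b2 : z ∈ Λ ∩ (U' \ W) → z ∈ V := fun q => a.2.2.2.2 q
        simp only [mem_filter, mem_union, mem_sdiff, mem_inter] at b2 hz ⊢
        tauto
    have v3 := card_union_le (V.filter (X.G v)) ((U₀ \ U') ∪ W)
    have v4 := card_union_le (U₀ \ U') W
    omega

end Pool.Agent.Lib.MP_be0860_lc.Bi
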