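import Mathlib

/-!
Matchings as partial involutions: alternating paths and exchanges.
-/

set_option autoImplicit false

namespace Pool.Agent.Lib.MP_be0860_lc.Bi

open Finset

/-- `μ` pairs up the elements of `S` along `H`. -/
def Pm (H : ℕ → ℕ → Prop) (S : Finset ℕ) (μ : ℕ → ℕ) : Prop :=
  ∀ v ∈ S, μ v ∈ S ∧ μ (μ v) = v ∧ H v (μ v)

/-- `K` is a union of pairs and of points outside `S`. -/
def Cl (S : Finset ℕ) (μ : ℕ → ℕ) (K : Finset ℕ) : Prop := ∀ v ∈ S, v ∈ K → μ v ∈ K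

/-- total cost -/
def cost (c : ℕ → ℕ → ℤ) (S : Finset ℕ) (μ : ℕ → ℕ) : ℤ := ∑ v ∈ S, c v (μ v)

variable {H : ℕ → ℕ → Prop} {S S' K C : Finset ℕ} {μ ν : ℕ → ℕ}

theorem Pm.mono {H' : ℕ → ℕ → Prop} (h : Pm H S μ) (e : ∀ v ∈ S, H v (μ v) → H' v (μ v)) :
    Pm H' S μ := fun v hv => ⟨(h v hv).1, (h v hv).2.1, e v hv (h v hv).2.2⟩

theorem Cl.not_mem (h : Pm H S μ) (hK : Cl S μ K) {v : ℕ} (hv : v ∈ S) (hn : v ∉ K) :
    μ v ∉ K := fun hm => hn ((h v hv).2.1 ▸ hK _ (h v hv).1 hm)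

theorem Pm.sdiff (h : Pm H S μ) (hK : Cl S μ K) : Pm H (S \ K) μ := fun v hv => by
  obtain ⟨h1, h2⟩ := mem_sdiff.1 hv
  exact ⟨mem_sdiff.2 ⟨(h v h1).1, hK.not_mem h h1 h2⟩, (h v h1).2⟩

theorem Cl.union (h : Cl S μ K) (h' : Cl S μ C) : Cl S μ (K ∪ C) := fun v hv hm =>
  (mem_union.1 hm).elim (fun a => mem_union_left _ (h v hv a)) fun a => mem_union_right _ (h' v hv a)

theorem path (n : ℕ) : ∀ (S : Finset ℕ) (μ : ℕ → ℕ), Pm (· ≠ ·) S μ → Pm (· ≠ ·) S' ν →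
    #(S'.filter fun v => ¬(v ∈ S ∧ μ v = ν v)) ≤ n → ∀ e ∈ S', e ∉ S →
    ∃ K ⊆ S ∪ S', Cl S μ K ∧ Cl S' ν K ∧ e ∈ K ∧ ∃ z ∈ K, z ≠ e ∧ (z ∈ S ↔ z ∉ S') ∧
      ∀ v ∈ K, (v ∈ S ↔ v ∉ S') → v = e ∨ v = z := by
  induction n with
  | zero =>
    intro S μ _ _ hn e he hS
    have : e ∈ S'.filter fun v => ¬(v ∈ S ∧ μ v = ν v) := mem_filter.2 ⟨he, fun h => hS h.1⟩
    have := card_pos.2 ⟨e, this⟩
    omega
  | succ n ih =>
    intro S μ h h' hn e he hS
    obtain ⟨b1, b2, b3⟩ := h' e he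
    by_cases hb : ν e ∈ S
    swap
    · refine ⟨{e, ν e}, ?_, ?_, ?_, by simp, ν e, by simp, b3.symm, by simp [hb, b1], by simp⟩
      · intro v hv
        simp only [mem_insert, mem_singleton] at hv
        rcases hv with rfl | rfl <;> simp [he, b1]
      · intro v hv hm
        simp only [mem_insert, mem_singleton] at hm
        rcases hm with rfl | rfl <;> contradiction
      · intro v hv hm
        simp only [mem_insert, mem_singleton] at hm ⊢
        rcases hm with rfl | rfl <;> simp [b2]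
    obtain ⟨a1, a2, a3⟩ := h _ hb
    have ae : μ (ν e) ≠ e := fun q => hS (q ▸ a1)
    by_cases ha : μ (ν e) ∈ S'
    swap
    · refine ⟨{e, ν e, μ (ν e)}, ?_, ?_, ?_, by simp, μ (ν e), by simp, ae, by simp [ha, a1], ?_⟩
      · intro v hv
        simp only [mem_insert, mem_singleton] at hv
        rcases hv with rfl | rfl | rfl <;> simp [he, b1, a1]
      · intro v hv hm
        simp only [mem_insert, mem_singleton] at hm ⊢
        rcases hm with rfl | rfl | rfl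
        · contradiction
        · simp
        · simp [a2]
      · intro v hv hm
        simp only [mem_insert, mem_singleton] at hm ⊢
        rcases hm with rfl | rfl | rfl
        · simp
        · simp [b2]
        · contradiction
      · intro v hm hv
        simp only [mem_insert, mem_singleton] at hm
        rcases hm with rfl | rfl | rfl
        · simp
        · simp [hb, b1] at hv
        · simp
    obtain ⟨b, hbe⟩ : ∃ b, b = ν e := ⟨_, rfl⟩
    obtain ⟨a, hab⟩ : ∃ a, a = μ b := ⟨_, rfl⟩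
    rw [← hbe] at b1 b2 b3 hb a1 a2 a3 ae ha
    rw [← hab] at a1 a2 a3 ae ha
    have p : Pm (· ≠ ·) (insert e (S.erase a)) fun v => if v = e then b else if v = b then e
        else μ v := by
      intro v hv
      by_cases v1 : v = e
      · subst v1
        simp [b3.symm, hb, a3, b3]
      by_cases v2 : v = b
      · subst v2
        simp [v1]
      have hv' : v ≠ a ∧ v ∈ S := by simpa [v1] using hv
      obtain ⟨c1, c2, c3⟩ := h v hv'.2
      have d1 : μ v ≠ e := fun q => hS (q ▸ c1)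
      have d2 : μ v ≠ b := fun q => hv'.1 (by rw [← c2, q, hab])
      have d3 : μ v ≠ a := fun q => v2 (by rw [← c2, q, a2])
      simp [v1, v2, d1, d2, d3, c1, c2, c3]
    obtain ⟨K, k0, k1, k2, k3, z, z1, z2, z3, z4⟩ := ih _ _ p h' (by
      refine Nat.lt_succ_iff.1 (lt_of_lt_of_le (card_lt_card ?_) hn)
      refine (ssubset_iff_of_subset fun v hv => ?_).2 ⟨e, by simp [he, hS], by simp [hbe]⟩
      simp only [mem_filter] at hv ⊢
      refine ⟨hv.1, fun q => hv.2 ?_⟩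
      have v1 : v ≠ e := fun r => hS (r ▸ q.1)
      have v2 : v ≠ b := fun r => ae (by rw [hab, ← r, q.2, r, b2])
      have v3 : v ≠ a := fun r => ae (by
        have := (h' v hv.1).2.1
        rw [← q.2, r, a2, b2] at this
        exact this.symm)
      simp [v1, v2, v3, q.1, q.2]) a ha (by simp [ae])
    have ze : z ≠ e := fun q => by simp [q, he] at z3
    refine ⟨insert e (insert b K), ?_, ?_, ?_, by simp, z, by simp [z1], ze, ?_, ?_⟩
    · intro v hv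
      simp only [mem_insert] at hv
      rcases hv with rfl | rfl | hv
      · simp [he]
      · simp [hb]
      · have := k0 hv
        simp only [mem_union, mem_insert, mem_erase] at this ⊢
        rcases this with (rfl | q) | q
        · exact Or.inr he
        · exact Or.inl q.2
        · exact Or.inr q
    · intro v hv hm
      have v1 : v ≠ e := fun r => hS (r ▸ hv)
      by_cases v2 : v = b
      · simp [v2, ← hab, k3]
      by_cases v3 : v = a
      · simp [v3, a2]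
      have := k1 v (by simp [v3, hv]) (by simpa [v1, v2] using hm)
      simp only [v1, v2, if_false] at this
      simp [this]
    · intro v hv hm
      simp only [mem_insert] at hm ⊢
      rcases hm with rfl | rfl | hm
      · simp [hbe]
      · simp [b2]
      · exact Or.inr (Or.inr (k2 v hv hm))
    · simpa [ze, z2] using z3
    · intro v hm hv
      by_cases v1 : v = e
      · exact Or.inl v1
      have v2 : v ≠ b := fun r => by simp [r, hb, b1] at hv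
      have v3 : v ≠ a := fun r => by simp [r, ha, a1] at hv
      exact (z4 v (by simpa [v1, v2] using hm) (by simpa [v1, v3] using hv)).elim
        (fun q => absurd q v3) Or.inr

theorem path' (h : Pm (· ≠ ·) S μ) (h' : Pm (· ≠ ·) S' ν) {e : ℕ} (he : e ∈ S ↔ e ∉ S') :
    ∃ K ⊆ S ∪ S', Cl S μ K ∧ Cl S' ν K ∧ e ∈ K ∧ ∃ z ∈ K, z ≠ e ∧ (z ∈ S ↔ z ∉ S') ∧
      ∀ v ∈ K, (v ∈ S ↔ v ∉ S') → v = e ∨ v = z := by
  by_cases hs : e ∈ S
  · obtain ⟨K, k0, k1, k2, k3, z, z1, z2, z3, z4⟩ := path _ S' ν h' h le_rfl e hs (he.1 hs)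
    exact ⟨K, union_comm S S' ▸ k0, k2, k1, k3, z, z1, z2, by tauto,
      fun v hv q => z4 v hv (by tauto)⟩
  · exact path _ S μ h h' le_rfl e (by tauto) hs

theorem cover (h : Pm (· ≠ ·) S μ) (h' : Pm (· ≠ ·) S' ν) (Q : Finset ℕ) :
    ∃ C, Cl S μ C ∧ Cl S' ν C ∧ (∀ q ∈ Q, (q ∈ S ↔ q ∉ S') → q ∈ C) ∧
      #(C.filter fun v => v ∈ S ↔ v ∉ S') ≤ 2 * #Q := by
  induction Q using Finset.induction_on with
  | empty => exact ⟨∅, by simp [Cl], by simp [Cl], by simp, by simp⟩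
  | insert q Q hq ih =>
    obtain ⟨C, c1, c2, c3, c4⟩ := ih
    rw [card_insert_of_notMem hq]
    by_cases he : q ∈ S ↔ q ∉ S'
    · obtain ⟨K, -, k1, k2, k3, z, -, -, -, z4⟩ := path' h h' he
      refine ⟨K ∪ C, k1.union c1, k2.union c2, fun v hv e => ?_, ?_⟩
      · rcases mem_insert.1 hv with rfl | hv
        · exact mem_union_left _ k3
        · exact mem_union_right _ (c3 v hv e)
      · rw [filter_union]
        have : #(K.filter fun v => v ∈ S ↔ v ∉ S') ≤ 2 :=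
          (card_le_card (t := {q, z}) fun v hv => by
            simpa using z4 v (mem_filter.1 hv).1 (mem_filter.1 hv).2).trans card_le_two
        have := card_union_le (K.filter fun v => v ∈ S ↔ v ∉ S')
          (C.filter fun v => v ∈ S ↔ v ∉ S')
        omega
    · refine ⟨C, c1, c2, fun v hv e => ?_, by omega⟩
      rcases mem_insert.1 hv with rfl | hv
      · exact absurd e he
      · exact c3 v hv e

theorem path_out (h : Pm (· ≠ ·) S μ) (h' : Pm (· ≠ ·) S' ν) (c1 : Cl S μ C) (c2 : Cl S' ν C)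
    {e : ℕ} (he : e ∈ S ↔ e ∉ S') (hC : e ∉ C) :
    ∃ K, Disjoint K C ∧ Cl S μ K ∧ Cl S' ν K ∧ e ∈ K ∧ ∃ z ∈ K, z ≠ e ∧ (z ∈ S ↔ z ∉ S') ∧
      ∀ v ∈ K, (v ∈ S ↔ v ∉ S') → v = e ∨ v = z := by
  obtain ⟨K, k0, k1, k2, k3, z, z1, z2, z3, z4⟩ := path' (h.sdiff c1) (h'.sdiff c2) (e := e)
    (by simpa [hC] using he)
  have d : ∀ v ∈ K, v ∉ C := fun v hv => by
    have := k0 hv
    simp only [mem_union, mem_sdiff] at this
    tauto
  exact ⟨K, disjoint_left.2 d, fun v hv hm => k1 v (mem_sdiff.2 ⟨hv, d v hm⟩) hm,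
    fun v hv hm => k2 v (mem_sdiff.2 ⟨hv, d v hm⟩) hm, k3, z, z1, z2, by simpa [d z z1] using z3,
    fun v hv q => z4 v hv (by simpa [d v hv] using q)⟩

theorem swap_pm (h : Pm H S μ) (h' : Pm H S' ν) (k : Cl S μ K) (k' : Cl S' ν K) :
    Pm H ((S \ K) ∪ (S' ∩ K)) fun v => if v ∈ K then ν v else μ v := by
  intro v hv
  by_cases hk : v ∈ K
  · have hs : v ∈ S' := by simpa [hk] using hv
    have := k' v hs hk
    simp [hk, this, h' v hs]
  · have hs : v ∈ S := by simpa [hk] using hv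
    have := k.not_mem h hs hk
    simp [hk, this, h v hs]

theorem swap_cost (c : ℕ → ℕ → ℤ) (S S' K : Finset ℕ) (μ ν : ℕ → ℕ) :
    cost c ((S \ K) ∪ (S' ∩ K)) (fun v => if v ∈ K then ν v else μ v) =
      cost c (S \ K) μ + cost c (S' ∩ K) ν := by
  unfold cost
  rw [sum_union (disjoint_left.2 fun v h1 h2 => (mem_sdiff.1 h1).2 (mem_inter.1 h2).2)]
  congr 1
  · exact sum_congr rfl fun v hv => by simp [(mem_sdiff.1 hv).2]
  · exact sum_congr rfl fun v hv => by simp [(mem_inter.1 hv).2]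

theorem cost_split (c : ℕ → ℕ → ℤ) (S K : Finset ℕ) (μ : ℕ → ℕ) :
    cost c (S \ K) μ + cost c (S ∩ K) μ = cost c S μ := by
  unfold cost
  rw [← sum_union (disjoint_sdiff_inter S K), sdiff_union_inter]

/-- the difference of the two sides -/
def bal (sd : ℕ → Bool) (T : Finset ℕ) : ℤ := ∑ v ∈ T, if sd v = true then 1 else -1

theorem Pm.bal {sd : ℕ → Bool} (hH : ∀ u v, H u v → sd u ≠ sd v) (h : Pm H S μ) :
    bal sd S = 0 := by
  refine sum_involution (fun v _ => μ v) (fun v hv => ?_) (fun v hv _ e => ?_)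
    (fun v hv => (h v hv).1) fun v hv => (h v hv).2.1
  · have := hH _ _ (h v hv).2.2
    cases h1 : sd v <;> cases h2 : sd (μ v) <;> simp_all
  · exact hH _ _ (h v hv).2.2 (by rw [e])

/-- `U` is the set of points of `Ω` missed by a matching of cost `x`. -/
def Re (H : ℕ → ℕ → Prop) (c : ℕ → ℕ → ℤ) (Ω U : Finset ℕ) (x : ℤ) : Prop :=
  U ⊆ Ω ∧ ∃ μ, Pm H (Ω \ U) μ ∧ cost c (Ω \ U) μ = x

variable {c : ℕ → ℕ → ℤ} {Ω U U' : Finset ℕ} {x x' : ℤ} {sd : ℕ → Bool}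

theorem Re.bal (hH : ∀ u v, H u v → sd u ≠ sd v) (h : Re H c Ω U x) : bal sd U = bal sd Ω := by
  obtain ⟨h1, μ, h2, -⟩ := h
  have := h2.bal hH
  unfold Bi.bal at this ⊢
  rw [← sum_sdiff h1, this, zero_add]

theorem swap_re (hU : U ⊆ Ω) (hU' : U' ⊆ Ω) (h : Pm H (Ω \ U) μ) (h' : Pm H (Ω \ U') ν)
    (k : Cl (Ω \ U) μ K) (k' : Cl (Ω \ U') ν K) :
    Re H c Ω ((U \ ((U \ U') ∩ K)) ∪ ((U' \ U) ∩ K))
      (cost c ((Ω \ U) \ K) μ + cost c ((Ω \ U') ∩ K) ν) := by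
  have e : Ω \ ((U \ ((U \ U') ∩ K)) ∪ ((U' \ U) ∩ K)) = ((Ω \ U) \ K) ∪ ((Ω \ U') ∩ K) := by
    ext v
    simp only [mem_sdiff, mem_union, mem_inter]
    tauto
  refine ⟨union_subset (sdiff_subset.trans hU) (inter_subset_left.trans (sdiff_subset.trans hU')),
    _, e ▸ swap_pm h h' k k', ?_⟩
  rw [e, swap_cost]

/-- the two kinds of exchanges -/
def Shape (sd : ℕ → Bool) (P P' : Finset ℕ) : Prop :=
  (∃ u v, P = {u} ∧ P' = {v} ∧ sd u = sd v) ∨
    ∃ a b x y, P = {a, b} ∧ P' = {x, y} ∧ sd a ≠ sd b ∧ sd x ≠ sd y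

theorem bal_exch {P P' : Finset ℕ} (hP : P ⊆ U) (hP' : Disjoint U P') :
    bal sd ((U \ P) ∪ P') + bal sd P = bal sd U + bal sd P' := by
  unfold bal
  rw [sum_union (hP'.mono_left sdiff_subset), ← sum_sdiff hP]
  ring

theorem half (hH : ∀ u v, H u v → sd u ≠ sd v) (hU : U ⊆ Ω) (hU' : U' ⊆ Ω)
    (h : Pm H (Ω \ U) μ) (h' : Pm H (Ω \ U') ν) (c1 : Cl (Ω \ U) μ C) (c2 : Cl (Ω \ U') ν C)
    {e : ℕ} (he : e ∈ U \ U') (hC : e ∉ C) :
    ∃ K, Disjoint K C ∧ Cl (Ω \ U) μ K ∧ Cl (Ω \ U') ν K ∧ ∃ z,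
      ((U \ U') ∩ K = {e} ∧ (U' \ U) ∩ K = {z} ∧ sd e = sd z) ∨
        ((U \ U') ∩ K = {e, z} ∧ (U' \ U) ∩ K = ∅ ∧ sd e ≠ sd z) := by
  have ne : ∀ u v, H u v → u ≠ v := fun u v q r => hH u v q (by rw [r])
  obtain ⟨e1, e2⟩ := mem_sdiff.1 he
  obtain ⟨K, k0, k1, k2, k3, z, z1, z2, z3, z4⟩ := path_out (h.mono fun v _ => ne _ _)
    (h'.mono fun v _ => ne _ _) c1 c2 (e := e) (by simp [e1, e2, hU e1]) hC
  have b1 := (swap_re (c := fun _ _ => 0) hU hU' h h' k1 k2).bal hH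
  have b2 := Re.bal (c := fun _ _ => 0) hH ⟨hU, μ, h, rfl⟩
  have b3 := bal_exch (sd := sd) (U := U) (P := (U \ U') ∩ K) (P' := (U' \ U) ∩ K)
    (inter_subset_left.trans sdiff_subset)
    (disjoint_left.2 fun v h1 h2 => (mem_sdiff.1 (mem_inter.1 h2).1).2 h1)
  have b4 : bal sd ((U \ U') ∩ K) = bal sd ((U' \ U) ∩ K) := by omega
  have z5 : ∀ v ∈ K, (v ∈ U ↔ v ∉ U') → v = e ∨ v = z := fun v hv q => z4 v hv (by
    have := @hU v
    have := @hU' v
    simp only [mem_sdiff]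
    tauto)
  refine ⟨K, k0, k1, k2, z, ?_⟩
  simp only [mem_sdiff] at z3
  by_cases zU : z ∈ U
  · have zU' : z ∉ U' := by
      have := hU zU
      tauto
    have p1 : (U \ U') ∩ K = {e, z} := by
      ext v
      simp only [mem_inter, mem_sdiff, mem_insert, mem_singleton]
      exact ⟨fun q => z5 v q.2 (by tauto), by rintro (rfl | rfl) <;> tauto⟩
    have p2 : (U' \ U) ∩ K = ∅ := by
      ext v
      simp only [mem_inter, mem_sdiff, notMem_empty, iff_false]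
      intro q
      rcases z5 v q.2 (by tauto) with rfl | rfl <;> tauto
    refine Or.inr ⟨p1, p2, ?_⟩
    rw [p1, p2, bal, bal, sum_pair z2.symm, sum_empty] at b4
    cases h1 : sd e <;> cases h2 : sd z <;> simp_all
  · have zU' : z ∈ U' := by tauto
    have p1 : (U \ U') ∩ K = {e} := by
      ext v
      simp only [mem_inter, mem_sdiff, mem_singleton]
      refine ⟨fun q => ?_, by rintro rfl; tauto⟩
      rcases z5 v q.2 (by tauto) with rfl | rfl <;> tauto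
    have p2 : (U' \ U) ∩ K = {z} := by
      ext v
      simp only [mem_inter, mem_sdiff, mem_singleton]
      refine ⟨fun q => ?_, by rintro rfl; tauto⟩
      rcases z5 v q.2 (by tauto) with rfl | rfl <;> tauto
    refine Or.inl ⟨p1, p2, ?_⟩
    rw [p1, p2, bal, bal, sum_singleton, sum_singleton] at b4
    cases h1 : sd e <;> cases h2 : sd z <;> simp_all

theorem exch (hH : ∀ u v, H u v → sd u ≠ sd v) (h : Re H c Ω U x) (h' : Re H c Ω U' x')
    (hc : #U = #U') (Q : Finset ℕ) (hQ : 2 * #Q < #(U \ U')) :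
    ∃ P ⊆ U \ U', ∃ P' ⊆ U' \ U, Disjoint P Q ∧ Disjoint P' Q ∧ Shape sd P P' ∧
      ∃ y y', Re H c Ω ((U \ P) ∪ P') y ∧ Re H c Ω ((U' \ P') ∪ P) y' ∧ y + y' = x + x' := by
  obtain ⟨hU, μ, h, rfl⟩ := h
  obtain ⟨hU', ν, h', rfl⟩ := h'
  have ne : ∀ u v, H u v → u ≠ v := fun u v q r => hH u v q (by rw [r])
  obtain ⟨C, c1, c2, c3, c4⟩ := cover (h.mono fun v _ => ne _ _) (h'.mono fun v _ => ne _ _) Q
  have out : ∀ T : Finset ℕ, 2 * #Q < #T → (∀ v ∈ T, (v ∈ Ω \ U ↔ v ∉ Ω \ U')) →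
      ∃ e ∈ T, e ∉ C := fun T h1 h2 => by
    by_contra hn
    push Not at hn
    have := card_le_card (s := T) (t := C.filter fun v => v ∈ Ω \ U ↔ v ∉ Ω \ U')
      fun v hv => mem_filter.2 ⟨hn v hv, h2 v hv⟩
    omega
  have m1 : ∀ v ∈ U \ U', (v ∈ Ω \ U ↔ v ∉ Ω \ U') := fun v hv => by
    have := @hU v
    simp only [mem_sdiff] at hv ⊢
    tauto
  have m2 : ∀ v ∈ U' \ U, (v ∈ Ω \ U ↔ v ∉ Ω \ U') := fun v hv => by
    have := @hU' v
    simp only [mem_sdiff] at hv ⊢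
    tauto
  have fin : ∀ K, Disjoint K C → Cl (Ω \ U) μ K → Cl (Ω \ U') ν K →
      Shape sd ((U \ U') ∩ K) ((U' \ U) ∩ K) →
      ∃ P ⊆ U \ U', ∃ P' ⊆ U' \ U, Disjoint P Q ∧ Disjoint P' Q ∧ Shape sd P P' ∧
      ∃ y y', Re H c Ω ((U \ P) ∪ P') y ∧ Re H c Ω ((U' \ P') ∪ P) y' ∧
        y + y' = cost c (Ω \ U) μ + cost c (Ω \ U') ν := fun K k0 k1 k2 s => by
    refine ⟨_, inter_subset_left, _, inter_subset_left, disjoint_left.2 fun v h1 h2 => ?_,
      disjoint_left.2 fun v h1 h2 => ?_, s, _, _, swap_re hU hU' h h' k1 k2,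
      swap_re hU' hU h' h k2 k1, ?_⟩
    · exact disjoint_left.1 k0 (mem_inter.1 h1).2 (c3 v h2 (m1 v (mem_inter.1 h1).1))
    · exact disjoint_left.1 k0 (mem_inter.1 h1).2 (c3 v h2 (m2 v (mem_inter.1 h1).1))
    · rw [← cost_split c (Ω \ U) K, ← cost_split c (Ω \ U') K]
      ring
  obtain ⟨e, he, eC⟩ := out _ hQ m1
  obtain ⟨e', he', eC'⟩ := out (U' \ U) (by rwa [← card_sdiff_comm hc]) m2
  obtain ⟨K, k0, k1, k2, z, ⟨p1, p2, p3⟩ | ⟨p1, p2, p3⟩⟩ := half hH hU hU' h h' c1 c2 he eC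
  · exact fin K k0 k1 k2 (Or.inl ⟨e, z, p1, p2, p3⟩)
  obtain ⟨K', l0, l1, l2, z', ⟨q1, q2, q3⟩ | ⟨q1, q2, q3⟩⟩ := half hH hU' hU h' h c2 c1 he' eC'
  · exact fin K' l0 l2 l1 (Or.inl ⟨z', e', q2, q1, q3.symm⟩)
  refine fin (K ∪ K') (disjoint_union_left.2 ⟨k0, l0⟩) (k1.union l2) (k2.union l1)
    (Or.inr ⟨e, z, e', z', ?_, ?_, p3, q3⟩)
  · rw [inter_union_distrib_left, p1, q2, union_empty]
  · rw [inter_union_distrib_left, p2, q1, empty_union]

end Pool.Agent.Lib.MP_be0860_lc.Bi
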